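import Pool.Agent.Zk89.MT.Tr

/-!
# The weak type inequality and the Banach principle
-/

set_option autoImplicit false
set_option linter.unusedSectionVars false

open Finset Filter Topology MeasureTheory
open scoped ENNReal

noncomputable section

namespace Pool.Agent.Zk89.MT

variable {X : Type*} [MeasurableSpace X] {μ : Measure X} [IsProbabilityMeasure μ]
  {C : Type*} [CommGroup C] {Ψ : C →* Equiv.Perm X}

/-- the weak type inequality along powers of two -/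
theorem weak_dyadic (D : ℕ) : ∃ A : ℝ, 0 ≤ A ∧ ∀ {X : Type*} [MeasurableSpace X] {μ : Measure X}
    [IsProbabilityMeasure μ] {C : Type*} [CommGroup C] {Ψ : C →* Equiv.Perm X}
    (_ : ∀ a, MeasurePreserving (Ψ a) μ μ) (a : ℕ → C) {h : X → ℝ} (_ : Measurable h)
    (_ : ∀ x, 0 ≤ h x) {b : ℝ} (_ : ∀ x, h x ≤ b) {lam : ℝ} (_ : 0 < lam),
    μ {x | ∃ t, lam < av Ψ a D h (2 ^ t) x} ≤
      ENNReal.ofReal (A / lam ^ 2 * ∫ x, h x ^ 2 ∂μ) := by
  obtain ⟨A, hA0, hA⟩ := curve_max D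
  refine ⟨2 * A ^ 2, by positivity, ?_⟩
  intro X _ μ _ C _ Ψ hmp a h hm h0 b h1 lam hlam
  have hb : 0 ≤ b := by
    have : Nonempty X := nonempty_of_isProbabilityMeasure μ
    obtain ⟨x⟩ := this
    exact (h0 x).trans (h1 x)
  set E : ℕ → Set X := fun t₁ => {x | ∃ t ≤ t₁, lam < av Ψ a D h (2 ^ t) x} with hE
  have hmono : Monotone E := by
    intro s t hst x ⟨r, hr, hx⟩
    exact ⟨r, hr.trans hst, hx⟩
  have hU : {x | ∃ t, lam < av Ψ a D h (2 ^ t) x} = ⋃ t₁, E t₁ := by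
    ext x
    simp only [hE, Set.mem_setOf_eq, Set.mem_iUnion]
    exact ⟨fun ⟨t, ht⟩ => ⟨t, t, le_rfl, ht⟩, fun ⟨_, t, _, ht⟩ => ⟨t, ht⟩⟩
  rw [hU, hmono.measure_iUnion]
  refine iSup_le fun t₁ => ?_
  set S : X → ℝ := fun x => (range (t₁ + 1)).sup' nonempty_range_add_one
    (fun t => av Ψ a D h (2 ^ t) x) with hS
  have hSm : Measurable S := Finset.measurable_range_sup''
    (fun t _ => av_meas hmp a D hm (2 ^ t))
  have hle : ∀ x, ∀ t ≤ t₁, av Ψ a D h (2 ^ t) x ≤ S x := fun x t ht =>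
    le_sup' (fun t => av Ψ a D h (2 ^ t) x) (mem_range.2 (Nat.lt_succ_of_le ht))
  have hS0 : ∀ x, 0 ≤ S x := fun x => (av_nonneg h0 _ _).trans (hle x 0 (Nat.zero_le _))
  have hSex : ∀ x, ∃ t ≤ t₁, S x ≤ av Ψ a D h (2 ^ t) x := by
    intro x
    obtain ⟨t, ht, he⟩ := exists_mem_eq_sup' (s := range (t₁ + 1)) nonempty_range_add_one
      (fun t => av Ψ a D h (2 ^ t) x)
    exact ⟨t, Nat.lt_succ_iff.1 (mem_range.1 ht), he.le⟩
  have hSb : ∀ x, S x ≤ b := by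
    intro x
    obtain ⟨t, -, ht⟩ := hSex x
    exact ht.trans (av_le hb h1 _ _)
  have key := trans hmp D hA0 hA a hm h0 h1 t₁ S hSm hS0 hSb hSex
  have hint : Integrable (fun x => S x ^ 2) μ := by
    refine Integrable.of_bound (hSm.pow_const 2).aestronglyMeasurable (b ^ 2)
      (Eventually.of_forall fun x => ?_)
    rw [Real.norm_eq_abs, abs_of_nonneg (sq_nonneg _)]
    exact pow_le_pow_left₀ (hS0 _) (hSb _) 2
  have hmk := mul_meas_ge_le_integral_of_nonneg (μ := μ)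
    (Eventually.of_forall fun x => sq_nonneg (S x)) hint (lam ^ 2)
  have hsub : E t₁ ⊆ {x | lam ^ 2 ≤ S x ^ 2} := by
    intro x ⟨t, ht, hx⟩
    exact pow_le_pow_left₀ hlam.le (hx.le.trans (hle x t ht)) 2
  refine (measure_mono hsub).trans ?_
  have h2 : μ.real {x | lam ^ 2 ≤ S x ^ 2} ≤ 2 * A ^ 2 / lam ^ 2 * ∫ x, h x ^ 2 ∂μ := by
    have hl2 : 0 < lam ^ 2 := by positivity
    rw [div_mul_eq_mul_div, le_div_iff₀ hl2, mul_comm]
    exact hmk.trans key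
  rw [← ENNReal.ofReal_toReal (measure_ne_top μ {x | lam ^ 2 ≤ S x ^ 2})]
  exact ENNReal.ofReal_le_ofReal h2

theorem av_dyadic {a : ℕ → C} {D : ℕ} {h : X → ℝ} (h0 : ∀ x, 0 ≤ h x) {N : ℕ} (hN : 1 ≤ N)
    (x : X) : ∃ t, av Ψ a D h N x ≤ 2 * av Ψ a D h (2 ^ t) x := by
  refine ⟨Nat.clog 2 N, ?_⟩
  have h1 : N ≤ 2 ^ Nat.clog 2 N := Nat.le_pow_clog (by norm_num) N
  have h2 : 2 ^ Nat.clog 2 N ≤ 2 * N := Pool.Agent.Zk89.BT.clog_pow_le hN
  have hN0 : (0 : ℝ) < N := by exact_mod_cast hN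
  unfold av
  have h3 : (N : ℝ)⁻¹ ≤ 2 * (((2 ^ Nat.clog 2 N : ℕ) : ℝ))⁻¹ := by
    have h4 : ((2 ^ Nat.clog 2 N : ℕ) : ℝ) ≤ 2 * N := by exact_mod_cast h2
    have h5 : (0 : ℝ) < ((2 ^ Nat.clog 2 N : ℕ) : ℝ) := by positivity
    rw [← div_eq_mul_inv, inv_eq_one_div, div_le_div_iff₀ hN0 h5]
    linarith
  have h4 : ∑ n ∈ range N, h (Ψ (gc a D n) x) ≤
      ∑ n ∈ range (2 ^ Nat.clog 2 N), h (Ψ (gc a D n) x) :=
    sum_le_sum_of_subset_of_nonneg (range_subset_range.2 h1) fun _ _ _ => h0 _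
  have h5 : 0 ≤ ∑ n ∈ range N, h (Ψ (gc a D n) x) := sum_nonneg fun _ _ => h0 _
  calc (N : ℝ)⁻¹ * ∑ n ∈ range N, h (Ψ (gc a D n) x) ≤
      2 * (((2 ^ Nat.clog 2 N : ℕ) : ℝ))⁻¹ *
        ∑ n ∈ range (2 ^ Nat.clog 2 N), h (Ψ (gc a D n) x) := by gcongr
    _ = _ := by ring

/-- the complex averages -/
def cav (Ψ : C →* Equiv.Perm X) (a : ℕ → C) (D : ℕ) (H : X → ℂ) (N : ℕ) (x : X) : ℂ :=
  (N : ℂ)⁻¹ * ∑ n ∈ range N, H (Ψ (gc a D n) x)

theorem cav_sub (a : ℕ → C) (D : ℕ) (H v : X → ℂ) (N : ℕ) (x : X) :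
    ‖cav Ψ a D H N x - cav Ψ a D v N x‖ ≤ av Ψ a D (fun x => ‖H x - v x‖) N x := by
  unfold cav av
  rw [← mul_sub, ← sum_sub_distrib, norm_mul, norm_inv, Complex.norm_natCast]
  exact mul_le_mul_of_nonneg_left (norm_sum_le _ _) (by positivity)

/-- **The Banach principle.** -/
theorem banach (hmp : ∀ a, MeasurePreserving (Ψ a) μ μ) (a : ℕ → C) (D : ℕ) {H : X → ℂ}
    (hH : Measurable H) {b : ℝ} (hb : ∀ x, ‖H x‖ ≤ b)
    (happ : ∀ ε : ℝ, 0 < ε → ∃ v : X → ℂ, Measurable v ∧ (∃ c, ∀ x, ‖v x‖ ≤ c) ∧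
      ∫ x, ‖H x - v x‖ ^ 2 ∂μ ≤ ε ∧
      ∀ᵐ x ∂μ, ∃ L, Tendsto (fun N => cav Ψ a D v N x) atTop (𝓝 L)) :
    ∀ᵐ x ∂μ, ∃ L, Tendsto (fun N => cav Ψ a D H N x) atTop (𝓝 L) := by
  obtain ⟨A, hA0, hA⟩ := weak_dyadic D
  -- the exceptional set
  have key : ∀ ε : ℝ, 0 < ε → ∀ᵐ x ∂μ, ∃ N₀, ∀ N ≥ N₀, ∀ N' ≥ N₀,
      ‖cav Ψ a D H N x - cav Ψ a D H N' x‖ ≤ ε := by
    intro ε hε
    rw [ae_iff]
    set E := {x | ¬ ∃ N₀, ∀ N ≥ N₀, ∀ N' ≥ N₀, ‖cav Ψ a D H N x - cav Ψ a D H N' x‖ ≤ ε} with hE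
    have hbound : ∀ δ : ℝ, 0 < δ → μ E ≤ ENNReal.ofReal δ := by
      intro δ hδ
      obtain ⟨v, hv, ⟨c, hc⟩, hv2, hvc⟩ := happ (δ / (A / (ε / 8) ^ 2 + 1)) (by positivity)
      set g : X → ℝ := fun x => ‖H x - v x‖ with hg
      have hgm : Measurable g := (hH.sub hv).norm
      have hg0 : ∀ x, 0 ≤ g x := fun x => norm_nonneg _
      have hgb : ∀ x, g x ≤ b + c := fun x => (norm_sub_le _ _).trans (add_le_add (hb x) (hc x))
      have hw := hA hmp a hgm hg0 hgb (lam := ε / 8) (by positivity)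
      have hsub : E ⊆ {x | ¬ ∃ L, Tendsto (fun N => cav Ψ a D v N x) atTop (𝓝 L)} ∪
          {x | ∃ t, ε / 8 < av Ψ a D g (2 ^ t) x} := by
        intro x hx
        by_contra hcon
        rw [Set.mem_union, not_or] at hcon
        obtain ⟨h1, h2⟩ := hcon
        simp only [Set.mem_setOf_eq, not_not] at h1
        simp only [Set.mem_setOf_eq, not_exists, not_lt] at h2
        apply hx
        obtain ⟨L, hL⟩ := h1
        obtain ⟨N₀, hN₀⟩ := Metric.cauchySeq_iff'.1 hL.cauchySeq (ε / 4) (by positivity)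
        refine ⟨max N₀ 1, fun N hN N' hN' => ?_⟩
        have hav : ∀ N ≥ max N₀ 1, av Ψ a D g N x ≤ ε / 4 := by
          intro N hN
          obtain ⟨t, ht⟩ := av_dyadic (Ψ := Ψ) (a := a) (D := D) hg0
            (le_trans (le_max_right _ _) hN) x
          have := h2 t
          linarith
        have h3 := (cav_sub (Ψ := Ψ) a D H v N x).trans (hav N hN)
        have h4 := (cav_sub (Ψ := Ψ) a D H v N' x).trans (hav N' hN')
        have h5 := hN₀ N (le_trans (le_max_left _ _) hN)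
        have h6 := hN₀ N' (le_trans (le_max_left _ _) hN')
        rw [dist_eq_norm] at h5 h6
        have e : cav Ψ a D H N x - cav Ψ a D H N' x =
            (cav Ψ a D H N x - cav Ψ a D v N x) - (cav Ψ a D H N' x - cav Ψ a D v N' x) +
            ((cav Ψ a D v N x - cav Ψ a D v N₀ x) -
              (cav Ψ a D v N' x - cav Ψ a D v N₀ x)) := by ring
        rw [e]
        refine (norm_add_le _ _).trans ?_
        have h7 := norm_sub_le (cav Ψ a D H N x - cav Ψ a D v N x)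
          (cav Ψ a D H N' x - cav Ψ a D v N' x)
        have h8 := norm_sub_le (cav Ψ a D v N x - cav Ψ a D v N₀ x)
          (cav Ψ a D v N' x - cav Ψ a D v N₀ x)
        linarith
      refine (measure_mono hsub).trans ((measure_union_le _ _).trans ?_)
      rw [ae_iff] at hvc
      rw [hvc, zero_add]
      refine hw.trans (ENNReal.ofReal_le_ofReal ?_)
      have hA' : 0 ≤ A / (ε / 8) ^ 2 := by positivity
      calc A / (ε / 8) ^ 2 * ∫ x, g x ^ 2 ∂μ ≤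
          A / (ε / 8) ^ 2 * (δ / (A / (ε / 8) ^ 2 + 1)) := by gcongr
        _ ≤ (A / (ε / 8) ^ 2 + 1) * (δ / (A / (ε / 8) ^ 2 + 1)) := by
          gcongr
          linarith
        _ = δ := by field_simp
    by_contra hne
    have hpos : 0 < (μ E).toReal := ENNReal.toReal_pos hne (measure_ne_top _ _)
    have h1 := hbound ((μ E).toReal / 2) (by positivity)
    have h2 := ENNReal.toReal_mono ENNReal.ofReal_ne_top h1
    rw [ENNReal.toReal_ofReal (by positivity)] at h2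
    linarith
  have h1 : ∀ᵐ x ∂μ, ∀ j : ℕ, ∃ N₀, ∀ N ≥ N₀, ∀ N' ≥ N₀,
      ‖cav Ψ a D H N x - cav Ψ a D H N' x‖ ≤ 1 / ((j : ℝ) + 1) := by
    rw [ae_all_iff]
    exact fun j => key _ (by positivity)
  filter_upwards [h1] with x hx
  apply cauchySeq_tendsto_of_complete
  rw [Metric.cauchySeq_iff']
  intro ε hε
  obtain ⟨j, hj⟩ := exists_nat_one_div_lt hε
  obtain ⟨N₀, hN₀⟩ := hx j
  refine ⟨N₀, fun N hN => ?_⟩
  rw [dist_eq_norm]
  exact (hN₀ N hN N₀ le_rfl).trans_lt hj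

end Pool.Agent.Zk89.MT
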