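import Pool.Agent.Zk89.MT.Wy

/-!
# Vectors of fractions of a given level
-/

set_option autoImplicit false
set_option linter.unusedSectionVars false

open Finset Filter Topology

noncomputable section

namespace Pool.Agent.Zk89.MT

open Pool.Agent.Zk89.BT (sum_blocks QQ QQ_pos QQ_ge dvd_QQ rI frac_far)
open Pool.Agent.Helper602.MK (ee)
open Pool.Agent.Helper602.MK.N_J5b (ee_add ee_zero norm_ee ee_int ee_add_int)

/-- the vector of fractions `a r / q`, `r < D`, is reduced -/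
def cop (D : ℕ) (a : ℕ → ℤ) (q : ℕ) : Prop :=
  ∀ e : ℕ, e ∣ q → (∀ r < D, (e : ℤ) ∣ a r) → e = 1

theorem cop_dvd {D : ℕ} {a a' : ℕ → ℤ} {q q' : ℕ} (hq : 1 ≤ q) (hq' : 1 ≤ q') (h : cop D a q)
    (he : ∀ r < D, a r * q' = a' r * q) : q ∣ q' := by
  set g := Nat.gcd q q' with hg
  have hg0 : 0 < g := Nat.gcd_pos_of_pos_left _ hq
  obtain ⟨e, he1⟩ := Nat.gcd_dvd_left q q'
  obtain ⟨e', he2⟩ := Nat.gcd_dvd_right q q'
  rw [← hg] at he1 he2
  have hcop : Nat.Coprime e e' := by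
    have h1 : Nat.gcd (g * e) (g * e') = g * Nat.gcd e e' := Nat.gcd_mul_left _ _ _
    rw [← he1, ← he2, ← hg] at h1
    have h2 : g * 1 = g * Nat.gcd e e' := by rw [mul_one]; exact h1
    exact (Nat.eq_of_mul_eq_mul_left hg0 h2).symm
  have h1 : e = 1 := by
    refine h e ⟨g, by rw [he1]; ring⟩ fun r hr => ?_
    have h2 := he r hr
    have h3 : (g : ℤ) * (a r * e') = g * (a' r * e) := by
      have e1 : (q : ℤ) = g * e := by exact_mod_cast he1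
      have e2 : (q' : ℤ) = g * e' := by exact_mod_cast he2
      rw [e1, e2] at h2
      linear_combination h2
    have h4 : a r * e' = a' r * e := by
      have : (g : ℤ) ≠ 0 := by exact_mod_cast hg0.ne'
      exact mul_left_cancel₀ this h3
    have h5 : IsCoprime (e : ℤ) (e' : ℤ) := Nat.isCoprime_iff_coprime.2 hcop
    exact h5.dvd_of_dvd_mul_right ⟨a' r, by rw [h4]; ring⟩
  rw [he1, h1, mul_one]
  exact ⟨e', he2⟩

theorem cop_eq {D : ℕ} {a a' : ℕ → ℤ} {q q' : ℕ} (hq : 1 ≤ q) (hq' : 1 ≤ q') (h : cop D a q)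
    (h' : cop D a' q') (he : ∀ r < D, a r * q' = a' r * q) : (∀ r < D, a r = a' r) ∧ q = q' := by
  have h1 : q ∣ q' := cop_dvd hq hq' h he
  have h2 : q' ∣ q := cop_dvd hq' hq h' fun r hr => (he r hr).symm
  have h3 : q = q' := Nat.dvd_antisymm h1 h2
  refine ⟨fun r hr => ?_, h3⟩
  have h4 := he r hr
  rw [h3] at h4
  have h5 : (q' : ℤ) ≠ 0 := by
    have : q' ≠ 0 := by omega
    exact_mod_cast this
  exact mul_right_cancel₀ h5 h4

/-- reduction -/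
theorem reduce (D : ℕ) : ∀ (q : ℕ) (a : ℕ → ℤ), 1 ≤ q → ∃ (a' : ℕ → ℤ) (q' : ℕ), 1 ≤ q' ∧
    q' ≤ q ∧ cop D a' q' ∧ ∀ r < D, (a r : ℝ) / q = a' r / q' := by
  intro q
  induction q using Nat.strong_induction_on with
  | _ q ih =>
    intro a hq
    by_cases hc : cop D a q
    · exact ⟨a, q, hq, le_rfl, hc, fun _ _ => rfl⟩
    · unfold cop at hc
      push Not at hc
      obtain ⟨e, ⟨q₁, hq₁⟩, hea, he1⟩ := hc
      have he0 : e ≠ 0 := by
        rintro rfl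
        omega
      have hq₁0 : 1 ≤ q₁ := by
        rcases Nat.eq_zero_or_pos q₁ with h0 | h0
        · subst h0
          omega
        · exact h0
      have hlt : q₁ < q := by
        rw [hq₁]
        have h2 : 2 ≤ e := by omega
        nlinarith
      have h3 : ∀ r : ℕ, ∃ b : ℤ, r < D → a r = e * b := by
        intro r
        by_cases hr : r < D
        · obtain ⟨b, hb⟩ := hea r hr
          exact ⟨b, fun _ => hb⟩
        · exact ⟨0, fun h => absurd h hr⟩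
      choose b hb using h3
      obtain ⟨a', q', h4, h5, h6, h7⟩ := ih q₁ hlt b hq₁0
      refine ⟨a', q', h4, by omega, h6, fun r hr => ?_⟩
      rw [← h7 r hr, hb r hr, hq₁]
      have : (e : ℝ) ≠ 0 := by exact_mod_cast he0
      push_cast
      rw [mul_div_mul_left _ _ this]

/-- **Bound for the Gauss sums.** -/
theorem gauss (D : ℕ) : ∃ C m : ℕ, 1 ≤ C ∧ 1 ≤ m ∧ ∀ (q : ℕ) (a : ℕ → ℤ), 1 ≤ q →
    cop D a q → (q : ℝ) * ‖GS D q a‖ ^ m ≤ C := by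
  obtain ⟨C, m, hC, hm, hW⟩ := weyl D
  refine ⟨C, m + 1, hC, by omega, fun q a hq hcop => ?_⟩
  have hq0 : (0 : ℝ) < q := by exact_mod_cast hq
  have hqc : (q : ℂ) ≠ 0 := by exact_mod_cast (show q ≠ 0 by omega)
  have hC1 : (1 : ℝ) ≤ C := by exact_mod_cast hC
  set s := ‖GS D q a‖ with hs
  have hs1 : s ≤ 1 := GS_norm_le D q a
  rcases (norm_nonneg (GS D q a)).eq_or_lt with h0 | h0
  · rw [← hs] at h0
    rw [← h0, zero_pow (by omega), mul_zero]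
    linarith
  rw [← hs] at h0
  set u := s⁻¹ with hu
  have hu1 : 1 ≤ u := by rw [hu]; exact (one_le_inv₀ h0).2 hs1
  have hu0 : 0 < u := by linarith
  -- complete sums
  have hfull : ∀ K : ℕ, 1 ≤ K → w D (K * q) (fun r => (a r : ℝ) / q) = GS D q a := by
    intro K hK
    unfold GS w
    rw [sum_blocks]
    have h1 : ∀ k j : ℕ, ee (ph D (fun r => (a r : ℝ) / q) (k * q + j)) =
        ee (ph D (fun r => (a r : ℝ) / q) j) := by
      intro k j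
      induction k with
      | zero => simp
      | succ k ih =>
        rw [show (k + 1) * q + j = (k * q + j) + q by ring, ee_per D hq, ih]
    simp only [h1, sum_const, card_range, nsmul_eq_mul]
    have hKc : (K : ℂ) ≠ 0 := by exact_mod_cast (show K ≠ 0 by omega)
    push_cast
    rw [mul_inv, mul_assoc, mul_left_comm ((q : ℂ)⁻¹), inv_mul_cancel_left₀ hKc]
  -- a large K
  obtain ⟨K, hK⟩ := exists_nat_gt (q * (C * u ^ m) * (C * u ^ m) + 1)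
  have hB : 0 < (C : ℝ) * u ^ m := by positivity
  have hK1 : 1 ≤ K := by
    have h2 : (1 : ℝ) < K := by
      refine lt_of_le_of_lt ?_ hK
      have : 0 ≤ q * (C * u ^ m) * (C * u ^ m) := by positivity
      linarith
    exact_mod_cast h2.le
  have hK0 : (0 : ℝ) < K := by exact_mod_cast hK1
  obtain ⟨q', hq'1, hq'2, a', ha'⟩ := hW (K * q) u (fun r => (a r : ℝ) / q)
    (Nat.one_le_iff_ne_zero.2 (by positivity)) hu1 (by
      rw [hfull K hK1, ← hs, hu, inv_mul_cancel₀ h0.ne'])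
  have hq'0 : (0 : ℝ) < q' := by exact_mod_cast hq'1
  have heq : ∀ r < D, a r * q' = a' r * q := by
    intro r hr
    have hKq : (K : ℝ) ≤ ((K * q : ℕ) : ℝ) ^ (r + 1) := by
      have h3 : K ≤ (K * q) ^ (r + 1) := by
        calc K ≤ K * q := Nat.le_mul_of_pos_right _ hq
          _ ≤ (K * q) ^ (r + 1) := Nat.le_self_pow (by omega) _
      exact_mod_cast h3
    by_contra hne
    have h4 := frac_far hq hq'1 hne
    have h5 : 1 / (q * q' : ℝ) ≤ C * u ^ m / K := by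
      calc 1 / (q * q' : ℝ) ≤ |(a r : ℝ) / q - a' r / q'| := h4
        _ ≤ C * u ^ m / ((K * q : ℕ) : ℝ) ^ (r + 1) := ha' r hr
        _ ≤ C * u ^ m / K := by gcongr
    rw [div_le_div_iff₀ (by positivity) hK0, one_mul] at h5
    have h6 : C * u ^ m * (q * q') ≤ q * (C * u ^ m) * (C * u ^ m) := by
      calc C * u ^ m * (q * q') ≤ C * u ^ m * (q * (C * u ^ m)) := by gcongr
        _ = q * (C * u ^ m) * (C * u ^ m) := by ring
    linarith
  have hdvd : q ∣ q' := cop_dvd hq hq'1 hcop heq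
  have hle : q ≤ q' := Nat.le_of_dvd hq'1 hdvd
  have hle' : (q : ℝ) ≤ C * u ^ m := by
    refine le_trans ?_ hq'2
    exact_mod_cast hle
  have h3 : (q : ℝ) * s ^ m ≤ C := by
    have h4 : u ^ m * s ^ m = 1 := by
      rw [← mul_pow, hu, inv_mul_cancel₀ h0.ne', one_pow]
    calc (q : ℝ) * s ^ m ≤ (C * u ^ m) * s ^ m := by gcongr
      _ = C := by rw [mul_assoc, h4, mul_one]
  calc (q : ℝ) * s ^ (m + 1) = (q * s ^ m) * s := by rw [pow_succ]; ring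
    _ ≤ C * 1 := by gcongr
    _ = C := mul_one _

/-- `a / q` is a reduced vector of level `s` close to `ξ` -/
def Fr (D s : ℕ) (ρ ξ : ℕ → ℝ) (a : ℕ → ℤ) (q : ℕ) : Prop :=
  1 ≤ q ∧ Nat.clog 2 q = s ∧ cop D a q ∧ ∀ r < D, |ξ r - a r / q| ≤ ρ r

theorem Fr.mono {D s : ℕ} {ρ ρ' ξ : ℕ → ℝ} {a : ℕ → ℤ} {q : ℕ} (h : Fr D s ρ ξ a q)
    (hr : ∀ r < D, ρ r ≤ ρ' r) : Fr D s ρ' ξ a q :=
  ⟨h.1, h.2.1, h.2.2.1, fun r hrD => (h.2.2.2 r hrD).trans (hr r hrD)⟩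

theorem Fr.le {D s : ℕ} {ρ ξ : ℕ → ℝ} {a : ℕ → ℤ} {q : ℕ} (h : Fr D s ρ ξ a q) : q ≤ 2 ^ s := by
  rw [← h.2.1]
  exact Nat.le_pow_clog (by norm_num) q

theorem Fr.ge {D s : ℕ} {ρ ξ : ℕ → ℝ} {a : ℕ → ℤ} {q : ℕ} (h : Fr D s ρ ξ a q) :
    2 ^ s ≤ 2 * q := by
  rcases Nat.eq_zero_or_pos s with h0 | h0
  · subst h0
    have := h.1
    omega
  · have h1 : 2 ^ (s - 1) < q := by
      rw [← h.2.1]
      refine Nat.pow_pred_clog_lt_self (by norm_num) ?_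
      by_contra hcon
      have h2 : q = 1 := by
        have := h.1
        omega
      rw [h2] at h
      have := h.2.1
      rw [Nat.clog_one_right] at this
      omega
    have h2 : 2 ^ s = 2 * 2 ^ (s - 1) := by
      rw [← pow_succ', Nat.sub_add_cancel h0]
    omega

theorem Fr.unique {D s s' : ℕ} {ρ ρ' ξ : ℕ → ℝ} {a a' : ℕ → ℤ} {q q' : ℕ}
    (h : Fr D s ρ ξ a q) (h' : Fr D s' ρ' ξ a' q')
    (hr : ∀ r < D, (ρ r + ρ' r) * (q * q') < 1) : (∀ r < D, a r = a' r) ∧ q = q' := by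
  refine cop_eq h.1 h'.1 h.2.2.1 h'.2.2.1 fun r hrD => ?_
  by_contra hne
  have h1 := frac_far h.1 h'.1 hne
  have h2 : |(a r : ℝ) / q - a' r / q'| ≤ ρ r + ρ' r := by
    have e : (a r : ℝ) / q - a' r / q' = (ξ r - a' r / q') - (ξ r - a r / q) := by ring
    rw [e]
    refine (abs_sub _ _).trans ?_
    linarith [h.2.2.2 r hrD, h'.2.2.2 r hrD]
  have hq0 : (0 : ℝ) < q := by exact_mod_cast h.1
  have hq'0 : (0 : ℝ) < q' := by exact_mod_cast h'.1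
  have h3 := h1.trans h2
  rw [div_le_iff₀ (mul_pos hq0 hq'0)] at h3
  linarith [hr r hrD]

/-- uniqueness at the same level -/
theorem Fr.unique' {D s : ℕ} {ρ ρ' ξ : ℕ → ℝ} {a a' : ℕ → ℤ} {q q' : ℕ} (h : Fr D s ρ ξ a q)
    (h' : Fr D s ρ' ξ a' q') (hr : ∀ r < D, ρ r ≤ 1 / (4 * 4 ^ s))
    (hr' : ∀ r < D, ρ' r ≤ 1 / (4 * 4 ^ s)) : (∀ r < D, a r = a' r) ∧ q = q' := by
  refine h.unique h' fun r hrD => ?_
  have h1 : (q : ℝ) ≤ 2 ^ s := by exact_mod_cast h.le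
  have h2 : (q' : ℝ) ≤ 2 ^ s := by exact_mod_cast h'.le
  have h4 : (4 : ℝ) ^ s = 2 ^ s * 2 ^ s := by rw [← mul_pow]; norm_num
  have h5 : (0 : ℝ) < 4 ^ s := by positivity
  calc (ρ r + ρ' r) * ((q : ℝ) * q') ≤
      (1 / (4 * 4 ^ s) + 1 / (4 * 4 ^ s)) * (2 ^ s * 2 ^ s) := by
        have := hr r hrD
        have := hr' r hrD
        gcongr
    _ = 1 / 2 := by rw [← h4]; field_simp; norm_num
    _ < 1 := by norm_num

open Classical in
/-- the Gauss sum of the vector of level `s` close to `ξ` -/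
def gam (D s : ℕ) (ρ ξ : ℕ → ℝ) : ℂ :=
  if h : ∃ x : (ℕ → ℤ) × ℕ, Fr D s ρ ξ x.1 x.2 then GS D h.choose.2 h.choose.1 else 0

theorem gam_eq {D s : ℕ} {ρ ξ : ℕ → ℝ} {a : ℕ → ℤ} {q : ℕ} (h : Fr D s ρ ξ a q)
    (hr : ∀ r < D, ρ r ≤ 1 / (4 * 4 ^ s)) : gam D s ρ ξ = GS D q a := by
  unfold gam
  have h0 : ∃ x : (ℕ → ℤ) × ℕ, Fr D s ρ ξ x.1 x.2 := ⟨(a, q), h⟩
  rw [dif_pos h0]
  obtain ⟨h1, h2⟩ := h0.choose_spec.unique' h hr hr
  rw [h2, GS_congr h1]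

theorem gam_zero {D s : ℕ} {ρ ξ : ℕ → ℝ} (h : ¬ ∃ x : (ℕ → ℤ) × ℕ, Fr D s ρ ξ x.1 x.2) :
    gam D s ρ ξ = 0 := by
  unfold gam
  rw [dif_neg h]

/-- the bound for the Gauss sums of level `s` -/
def GB (D : ℕ) (Cg κ : ℝ) : Prop := ∀ (s : ℕ) (ρ ξ : ℕ → ℝ) (a : ℕ → ℤ) (q : ℕ),
  Fr D s ρ ξ a q → ‖GS D q a‖ ≤ Cg * κ ^ s

theorem gauss_level (D : ℕ) : ∃ (C κ : ℝ), 1 ≤ C ∧ 1 / 2 ≤ κ ∧ κ < 1 ∧ GB D C κ := by
  obtain ⟨C, m, hC, hm, hG⟩ := gauss D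
  have hC1 : (1 : ℝ) ≤ C := by exact_mod_cast hC
  have hm0 : (0 : ℝ) < m := by exact_mod_cast hm
  set κ : ℝ := (1 / 2 : ℝ) ^ ((m : ℝ)⁻¹) with hκ
  have hκ0 : 0 < κ := by rw [hκ]; positivity
  have hκm : κ ^ m = 1 / 2 := by
    rw [hκ, ← Real.rpow_natCast, ← Real.rpow_mul (by norm_num), inv_mul_cancel₀ hm0.ne',
      Real.rpow_one]
  have hκ1 : κ < 1 := by
    rw [hκ]
    exact Real.rpow_lt_one (by norm_num) (by norm_num) (by positivity)
  have hκ2 : 1 / 2 ≤ κ := by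
    rw [← hκm]
    calc κ ^ m ≤ κ ^ 1 := pow_le_pow_of_le_one hκ0.le hκ1.le hm
      _ = κ := pow_one _
  refine ⟨2 * C, κ, by linarith, hκ2, hκ1, fun s ρ ξ a q hF => ?_⟩
  have h1 := hG q a hF.1 hF.2.2.1
  have h2 : (2 : ℝ) ^ s ≤ 2 * q := by exact_mod_cast hF.ge
  have h3 : ‖GS D q a‖ ^ m ≤ (2 * C * κ ^ s) ^ m := by
    have h4 : (2 * C * κ ^ s) ^ m = (2 * (C : ℝ)) ^ m * (1 / 2) ^ s := by
      rw [mul_pow, ← pow_mul, mul_comm s m, pow_mul, hκm]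
    rw [h4]
    have h5 : 2 * (C : ℝ) ≤ (2 * (C : ℝ)) ^ m := le_self_pow₀ (by linarith) (by omega)
    have h6 : (2 : ℝ) ^ s * ‖GS D q a‖ ^ m ≤ 2 * C := by
      calc (2 : ℝ) ^ s * ‖GS D q a‖ ^ m ≤ (2 * q) * ‖GS D q a‖ ^ m := by gcongr
        _ = 2 * (q * ‖GS D q a‖ ^ m) := by ring
        _ ≤ 2 * C := by linarith
    have h7 : ‖GS D q a‖ ^ m ≤ 2 * C * (1 / 2) ^ s := by
      rw [one_div, inv_pow, ← div_eq_mul_inv, le_div_iff₀ (by positivity), mul_comm]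
      exact h6
    refine h7.trans ?_
    gcongr
  exact le_of_pow_le_pow_left₀ (by omega) (by positivity) h3

theorem gam_norm {D : ℕ} {C κ : ℝ} (hC : 0 ≤ C) (hκ : 0 ≤ κ) (hG : GB D C κ)
    (s : ℕ) (ρ ξ : ℕ → ℝ) : ‖gam D s ρ ξ‖ ≤ C * κ ^ s := by
  unfold gam
  split_ifs with h
  · exact hG s ρ ξ _ _ h.choose_spec
  · rw [norm_zero]; positivity

end Pool.Agent.Zk89.MT
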