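import Pool.Agent.Zk89.MT.Bp
import Pool.Agent.Zk89.BT.Cl

/-!
# Effectively mixing actions: one function along polynomial curves in abelian subgroups
-/

set_option autoImplicit false
set_option linter.unusedSectionVars false

open Filter Topology MeasureTheory ProbabilityTheory Polynomial

noncomputable section

namespace Pool.Agent.Zk89.MT

open Pool.Agent.Zk89.QM (EM Dns GoodF PCls nilCls poly_slices pow_mem list_mem PolMap DegLE_mono)
open Pool.Agent.Zk89.BT (G1)
open Pool.Agent.W761.Box (BM bx bxc)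
open Pool.Agent.Helper28.LCN (TorsionFree)

section dense

variable {X G : Type*} [Group G] [MeasurableSpace X] {μ : Measure X} [IsProbabilityMeasure μ]
  {Φ : G →* Equiv.Perm X} {ρ : G → ℝ} {𝒮 : Set (X → ℂ)} {Nm : (X → ℂ) → ℝ} {A : ℝ} {a : ℕ}

/-- polynomials in one function -/
theorem poly_mem (h : EM μ Φ ρ 𝒮 Nm A a) {w : X → ℂ} (hw : w ∈ 𝒮) (p : ℂ[X]) :
    (fun x => p.eval (w x)) ∈ 𝒮 := by
  have h0 : (fun _ : X => (0 : ℂ)) ∈ 𝒮 := by
    have := h.sub _ h.one 1
    simpa using this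
  refine Polynomial.recOnHorner (M := fun p => (fun x => p.eval (w x)) ∈ 𝒮) p ?_ ?_ ?_
  · simpa using h0
  · intro p c _ _ hp
    have := h.sub _ hp (-c)
    simpa using this
  · intro p _ hp
    have := (h.mul _ hp _ hw).1
    simpa using this

/-- **Density in `L²`**, functions with values in `[0, 1]`. -/
theorem l2_unit (h : EM μ Φ ρ 𝒮 Nm A a) (hd : Dns μ 𝒮) {f : X → ℝ} (hf : Measurable f)
    (h0 : ∀ x, 0 ≤ f x) (h1 : ∀ x, f x ≤ 1) {ε : ℝ} (hε : 0 < ε) :
    ∃ v ∈ 𝒮, ∫ x, ‖(f x : ℂ) - v x‖ ^ 2 ∂μ ≤ ε := by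
  set η : ℝ := min 1 (ε / 4) with hη
  have hη0 : 0 < η := lt_min one_pos (by positivity)
  have hη1 : η ≤ 1 := min_le_left _ _
  have hη2 : 4 * η ≤ ε := by
    have := min_le_right 1 (ε / 4)
    linarith
  obtain ⟨u, hu, ⟨hum, Bd, hBd⟩, hi⟩ := hd (fun x => (f x : ℂ))
    ⟨Complex.measurable_ofReal.comp hf, 1, fun x => by
      rw [Complex.norm_real, Real.norm_eq_abs, abs_of_nonneg (h0 x)]
      exact h1 x⟩ η hη0
  have hw : (fun x => u x * starRingEnd ℂ (u x)) ∈ 𝒮 := (h.mul _ hu _ (h.conj _ hu)).1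
  obtain ⟨p, hp⟩ := exists_polynomial_near_of_continuousOn 0 (Bd ^ 2)
    (fun t => min (√t) 1) (by fun_prop) η hη0
  have hv := poly_mem h hw (p.map (algebraMap ℝ ℂ))
  refine ⟨_, hv, ?_⟩
  have hve : ∀ x, (p.map (algebraMap ℝ ℂ)).eval (u x * starRingEnd ℂ (u x)) =
      ((p.eval (‖u x‖ ^ 2) : ℝ) : ℂ) := by
    intro x
    rw [Complex.mul_conj, Complex.normSq_eq_norm_sq]
    rw [show (((‖u x‖ ^ 2 : ℝ)) : ℂ) = algebraMap ℝ ℂ (‖u x‖ ^ 2) from rfl,
      Polynomial.eval_map_algebraMap, Polynomial.aeval_algebraMap_apply]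
    rfl
  simp only [hve]
  have hpt : ∀ x, ‖(f x : ℂ) - ((p.eval (‖u x‖ ^ 2) : ℝ) : ℂ)‖ ^ 2 ≤
      ‖(f x : ℂ) - u x‖ + 3 * η := by
    intro x
    rw [← Complex.ofReal_sub, Complex.norm_real, Real.norm_eq_abs]
    have hux : ‖u x‖ ^ 2 ∈ Set.Icc 0 (Bd ^ 2) :=
      ⟨sq_nonneg _, pow_le_pow_left₀ (norm_nonneg _) (hBd x) 2⟩
    have g1 := hp _ hux
    rw [Real.sqrt_sq (norm_nonneg _)] at g1
    set m := min ‖u x‖ 1 with hm
    have hm0 : 0 ≤ m := le_min (norm_nonneg _) zero_le_one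
    have hm1 : m ≤ 1 := min_le_right _ _
    have g2 : |f x - m| ≤ ‖(f x : ℂ) - u x‖ := by
      have g3 : |f x - ‖u x‖| ≤ ‖(f x : ℂ) - u x‖ := by
        have := abs_norm_sub_norm_le (f x : ℂ) (u x)
        rwa [Complex.norm_real, Real.norm_eq_abs, abs_of_nonneg (h0 x)] at this
      refine le_trans ?_ g3
      rcases le_total ‖u x‖ 1 with hc | hc
      · rw [hm, min_eq_left hc]
      · rw [hm, min_eq_right hc, abs_of_nonpos (by linarith [h1 x]),
          abs_of_nonpos (by linarith [h1 x])]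
        linarith
    have g3 : |f x - m| ≤ 1 := by
      rw [abs_le]
      constructor <;> linarith [h0 x, h1 x]
    have g4 : |f x - p.eval (‖u x‖ ^ 2)| ≤ |f x - m| + η := by
      have e : f x - p.eval (‖u x‖ ^ 2) = (f x - m) - (p.eval (‖u x‖ ^ 2) - m) := by ring
      rw [e]
      exact (abs_sub _ _).trans (by linarith)
    have g5 := abs_nonneg (f x - m)
    calc |f x - p.eval (‖u x‖ ^ 2)| ^ 2 ≤ (|f x - m| + η) ^ 2 := by gcongr
      _ ≤ |f x - m| + 3 * η := by nlinarith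
      _ ≤ _ := by linarith
  have hint : Integrable (fun x => ‖(f x : ℂ) - u x‖ + 3 * η) μ := by
    refine Integrable.add ?_ (integrable_const _)
    refine Integrable.of_bound
      ((Complex.measurable_ofReal.comp hf).sub hum).norm.aestronglyMeasurable (1 + Bd)
      (Eventually.of_forall fun x => ?_)
    rw [norm_norm]
    refine (norm_sub_le _ _).trans (add_le_add ?_ (hBd x))
    rw [Complex.norm_real, Real.norm_eq_abs, abs_of_nonneg (h0 x)]
    exact h1 x
  refine (integral_mono_of_nonneg (Eventually.of_forall fun x => sq_nonneg _) hint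
    (Eventually.of_forall hpt)).trans ?_
  have hint2 : Integrable (fun x => ‖(f x : ℂ) - u x‖) μ := by
    have := hint.sub (integrable_const (3 * η))
    refine this.congr (Eventually.of_forall fun x => ?_)
    simp
  rw [integral_add hint2 (integrable_const _), integral_const]
  simp only [probReal_univ, smul_eq_mul, one_mul]
  linarith

/-- **Density in `L²`**, bounded real functions. -/
theorem l2_dense (h : EM μ Φ ρ 𝒮 Nm A a) (hd : Dns μ 𝒮) {f : X → ℝ} (hf : Measurable f)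
    {c : ℝ} (hc : ∀ x, |f x| ≤ c) {ε : ℝ} (hε : 0 < ε) :
    ∃ v ∈ 𝒮, ∫ x, ‖(f x : ℂ) - v x‖ ^ 2 ∂μ ≤ ε := by
  set K : ℝ := |c| + 1 with hK
  have hK0 : 0 < K := by positivity
  have hfK : ∀ x, |f x| ≤ K := fun x => (hc x).trans ((le_abs_self c).trans (by linarith))
  obtain ⟨v, hv, hi⟩ := l2_unit h hd (f := fun x => (f x + K) / (2 * K))
    ((hf.add_const K).div_const _) (fun x => by
      have := (abs_le.1 (hfK x)).1
      exact div_nonneg (by linarith) (by positivity)) (fun x => by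
      have := (abs_le.1 (hfK x)).2
      rw [div_le_one (by positivity)]
      linarith) (ε := ε / (2 * K) ^ 2) (by positivity)
  have hv' := poly_mem h hv (C (2 * K : ℂ) * Polynomial.X - C (K : ℂ))
  refine ⟨_, hv', ?_⟩
  have e : ∀ x, ‖(f x : ℂ) - (C (2 * K : ℂ) * Polynomial.X - C (K : ℂ)).eval (v x)‖ ^ 2 =
      (2 * K) ^ 2 * ‖(((f x + K) / (2 * K) : ℝ) : ℂ) - v x‖ ^ 2 := by
    intro x
    have hKc : (K : ℂ) ≠ 0 := by exact_mod_cast hK0.ne'
    have e1 : (f x : ℂ) - (C (2 * K : ℂ) * Polynomial.X - C (K : ℂ)).eval (v x) =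
        ((2 * K : ℝ) : ℂ) * ((((f x + K) / (2 * K) : ℝ) : ℂ) - v x) := by
      simp only [eval_sub, eval_mul, eval_C, eval_X]
      push_cast
      field_simp
      ring
    rw [e1, norm_mul, mul_pow, Complex.norm_real, Real.norm_eq_abs, sq_abs]
  simp only [e]
  rw [integral_const_mul]
  calc (2 * K) ^ 2 * ∫ x, ‖(((f x + K) / (2 * K) : ℝ) : ℂ) - v x‖ ^ 2 ∂μ ≤
      (2 * K) ^ 2 * (ε / (2 * K) ^ 2) := by gcongr
    _ = ε := by field_simp

theorem bxc_one (N : ℕ) (F : (Fin 1 → ℕ) → ℂ) :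
    bxc 1 (fun _ => N) F = (N : ℂ)⁻¹ * ∑ n ∈ Finset.range N, F (fun _ => n) := by
  unfold bxc
  rw [Fin.prod_univ_one]
  congr 1
  refine Finset.sum_nbij' (fun m => m 0) (fun n _ => n) ?_ ?_ ?_ ?_ ?_
  · intro m hm
    exact Fintype.mem_piFinset.1 hm 0
  · intro n hn
    exact Fintype.mem_piFinset.2 fun _ => hn
  · intro m _
    funext i
    rw [Fin.fin_one_eq_zero i]
  · intro n _
    rfl
  · intro m _
    congr 1
    funext i
    rw [Fin.fin_one_eq_zero i]

/-- **One function along the moment curve.** -/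
theorem g1_curve [Nonempty X] (h : EM μ Φ ρ 𝒮 Nm A a) (hA : 1 ≤ A) (hd : Dns μ 𝒮)
    {C : Type*} [CommGroup C] (ι : C →* G) (e : ℕ → C) (D : ℕ) (𝒬 : PCls G)
    (h𝒬 : 𝒬.P 1 (fun m => ι (gc e D (m 0)))) :
    G1 μ (fun n => (Φ (ι (gc e D n)) : X → X)) := by
  intro H hH ⟨c, hc⟩
  have hmp : ∀ g : C, MeasurePreserving ((Φ.comp ι) g) μ μ := fun g => h.mp _
  have key := banach (Ψ := Φ.comp ι) hmp e D (H := fun x => (H x : ℂ))
    (Complex.measurable_ofReal.comp hH) (b := c) (fun x => by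
      rw [Complex.norm_real, Real.norm_eq_abs]
      exact hc x) (fun ε hε => by
      obtain ⟨v, hv, hi⟩ := l2_dense h hd hH hc hε
      refine ⟨v, h.meas v hv, ⟨Nm v, h.bdd v hv⟩, hi, ?_⟩
      have hcv := h.conv_all hA 𝒬 (J := Fin 1) (k := 1) (fun _ => v) (fun _ => hv)
        (fun _ m => ι (gc e D (m 0))) (fun _ => h𝒬)
      filter_upwards [hcv] with x hx
      obtain ⟨L, hL⟩ := hx
      refine ⟨L, ?_⟩
      have h1 : Tendsto (fun (N : ℕ) (_ : Fin 1) => N) atTop atTop :=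
        tendsto_atTop_atTop.2 fun b => ⟨b 0, fun N hN i => by
          rw [Fin.fin_one_eq_zero i]
          exact hN⟩
      refine (hL.comp h1).congr fun N => ?_
      simp only [Function.comp_apply, bxc_one, Fin.prod_univ_one]
      rfl)
  filter_upwards [key] with x hx
  obtain ⟨L, hL⟩ := hx
  refine ⟨L.re, ?_⟩
  have h1 := (Complex.continuous_re.tendsto L).comp hL
  refine h1.congr fun N => ?_
  simp only [Function.comp_apply]
  unfold cav
  have e1 : (N : ℂ)⁻¹ * ∑ n ∈ Finset.range N, ((H ((Φ.comp ι) (gc e D n) x) : ℝ) : ℂ) =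
      (((N : ℝ)⁻¹ * ∑ n ∈ Finset.range N, H ((Φ.comp ι) (gc e D n) x) : ℝ) : ℂ) := by
    push_cast
    rfl
  rw [e1, Complex.ofReal_re]
  rfl

end dense

theorem zpow_sum {C : Type*} [CommGroup C] (u : C) (f : ℕ → ℤ) (n : ℕ) :
    u ^ (∑ r ∈ Finset.range n, f r) = ∏ r ∈ Finset.range n, u ^ f r := by
  induction n with
  | zero => simp
  | succ n ih => rw [Finset.sum_range_succ, Finset.prod_range_succ, zpow_add, ih]

/-- powers with polynomial exponents in a commutative group -/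
theorem prod_poly {C : Type*} [CommGroup C] {d : ℕ} (u : Fin d → C) (P : Fin d → ℤ[X]) :
    ∃ (c : C) (e : ℕ → C) (D : ℕ), ∀ n : ℕ,
      ∏ i, u i ^ ((P i).eval (n : ℤ)) = c * gc e D n := by
  refine ⟨∏ i, u i ^ (P i).coeff 0, fun r => ∏ i, u i ^ (P i).coeff (r + 1),
    ∑ i, (P i).natDegree, fun n => ?_⟩
  have h1 : ∀ i, (P i).eval (n : ℤ) = ∑ r ∈ Finset.range (∑ i, (P i).natDegree + 1),
      (P i).coeff r * (n : ℤ) ^ r := by
    intro i
    refine Polynomial.eval_eq_sum_range' (Nat.lt_succ_of_le ?_) _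
    exact Finset.single_le_sum (f := fun i => (P i).natDegree) (fun _ _ => Nat.zero_le _)
      (Finset.mem_univ i)
  unfold gc
  simp only [h1, zpow_sum, Finset.prod_range_succ', Finset.prod_mul_distrib, pow_zero, mul_one]
  rw [mul_comm, Finset.prod_comm]
  congr 1
  refine Finset.prod_congr rfl fun r _ => ?_
  rw [← Finset.prod_pow]
  refine Finset.prod_congr rfl fun i _ => ?_
  rw [zpow_mul, ← zpow_natCast]
  push_cast
  rfl

section group

variable {G : Type} [Group G] [Group.IsNilpotent G]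

/-- The class of products of powers with polynomial exponents in separate variables. -/
theorem exists_cls_gen (htf : TorsionFree G) {n k d : ℕ} (b : Fin n → G)
    (u : Fin n → Fin k → Fin d → G) (P : Fin n → Fin k → Fin d → ℤ[X]) :
    ∃ 𝒬 : PCls G, (∀ j, 𝒬.P k (fun m => b j * (List.ofFn fun l : Fin k =>
      (List.ofFn fun i : Fin d => u j l i ^ ((P j l i).eval ((m l : ℕ) : ℤ))).prod).prod)) := by
  choose D hD using fun (j : Fin n) (l : Fin k) (i : Fin d) =>
    poly_slices (Polynomial.aeval (MvPolynomial.X l) (P j l i) : MvPolynomial (Fin k) ℤ)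
  set δ := ∑ j, ∑ l, ∑ i, D j l i + 1 with hδ
  have hδ0 : 0 < δ := by omega
  refine ⟨nilCls G htf δ hδ0, fun j => ?_⟩
  show PolMap G δ k fun m => b j * (List.ofFn fun l : Fin k =>
      (List.ofFn fun i : Fin d => u j l i ^ ((P j l i).eval ((m l : ℕ) : ℤ))).prod).prod
  refine PolMap.mul hδ0 (PolMap.const δ k (b j))
    (list_mem hδ0 (fun (l : Fin k) (m : Fin k → ℕ) =>
      (List.ofFn fun i : Fin d => u j l i ^ ((P j l i).eval ((m l : ℕ) : ℤ))).prod)
      fun l => list_mem hδ0 (fun (i : Fin d) (m : Fin k → ℕ) =>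
        u j l i ^ ((P j l i).eval ((m l : ℕ) : ℤ))) fun i => ?_)
  have h1 := pow_mem (δ := δ) (k := k) (u j l i)
    (P := (Polynomial.aeval (MvPolynomial.X l) (P j l i) : MvPolynomial (Fin k) ℤ))
    (fun i' m => DegLE_mono (by
      have h0 : D j l i ≤ ∑ i, D j l i :=
        Finset.single_le_sum (f := D j l) (fun _ _ => Nat.zero_le _) (Finset.mem_univ i)
      have h1 : ∑ i, D j l i ≤ ∑ l, ∑ i, D j l i :=
        Finset.single_le_sum (f := fun l => ∑ i, D j l i) (fun _ _ => Nat.zero_le _)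
          (Finset.mem_univ l)
      have h2 : ∑ l, ∑ i, D j l i ≤ ∑ j, ∑ l, ∑ i, D j l i :=
        Finset.single_le_sum (f := fun j => ∑ l, ∑ i, D j l i) (fun _ _ => Nat.zero_le _)
          (Finset.mem_univ j)
      omega) (hD j l i i' m))
  have h2 : ∀ m : Fin k → ℕ, MvPolynomial.eval (fun l => ((m l : ℕ) : ℤ))
      (Polynomial.aeval (MvPolynomial.X l) (P j l i) : MvPolynomial (Fin k) ℤ) =
      (P j l i).eval ((m l : ℕ) : ℤ) := by
    intro m
    rw [← MvPolynomial.coe_aeval_eq_eval, RingHom.coe_coe, ← Polynomial.aeval_algHom_apply,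
      MvPolynomial.aeval_X]
    rfl
  simpa only [h2] using h1

variable {X : Type*} [MeasurableSpace X] {μ : Measure X} [IsProbabilityMeasure μ]
  {Φ : G →* Equiv.Perm X} {ρ : G → ℝ} {𝒮 : Set (X → ℂ)} {Nm : (X → ℂ) → ℝ} {A : ℝ} {a : ℕ}

/-- **One function along polynomial curves in abelian subgroups.** -/
theorem g1_poly [Nonempty X] (htf : TorsionFree G) (h : EM μ Φ ρ 𝒮 Nm A a) (hA : 1 ≤ A)
    (hd : Dns μ 𝒮) {d : ℕ} (u : Fin d → G) (hu : ∀ i i', u i * u i' = u i' * u i)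
    (P : Fin d → ℤ[X]) :
    G1 μ (fun n => (Φ ((List.ofFn fun i : Fin d => u i ^ ((P i).eval (n : ℤ))).prod) : X → X)) := by
  have hcomm : ∀ x ∈ Set.range u, ∀ y ∈ Set.range u, x * y = y * x := by
    rintro _ ⟨i, rfl⟩ _ ⟨i', rfl⟩
    exact hu i i'
  letI inst : CommGroup (Subgroup.closure (Set.range u)) :=
    Subgroup.closureCommGroupOfComm hcomm
  let ι : Subgroup.closure (Set.range u) →* G := (Subgroup.closure (Set.range u)).subtype
  let u' : Fin d → Subgroup.closure (Set.range u) := fun i =>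
    ⟨u i, Subgroup.subset_closure ⟨i, rfl⟩⟩
  have hu' : ∀ i, ι (u' i) = u i := fun i => rfl
  obtain ⟨c, e, D, hce⟩ := prod_poly u' P
  have hw : ∀ n : ℕ, (List.ofFn fun i : Fin d => u i ^ ((P i).eval (n : ℤ))).prod =
      ι c * ι (gc e D n) := by
    intro n
    rw [← map_mul, ← hce n, ← List.prod_ofFn, map_list_prod, List.map_ofFn]
    congr 2
  obtain ⟨𝒬, h𝒬⟩ := exists_cls_gen htf (n := 1) (k := 1) (d := d) (fun _ => (ι c)⁻¹)
    (fun _ _ => u) (fun _ _ => P)
  have h𝒬' : 𝒬.P 1 (fun m => ι (gc e D (m 0))) := by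
    have := h𝒬 0
    refine cast ?_ this
    congr 1
    funext m
    have e1 : (List.ofFn fun l : Fin 1 =>
        (List.ofFn fun i : Fin d => u i ^ ((P i).eval ((m l : ℕ) : ℤ))).prod).prod =
        (List.ofFn fun i : Fin d => u i ^ ((P i).eval ((m 0 : ℕ) : ℤ))).prod := by
      simp
    rw [e1, hw, inv_mul_cancel_left]
  have hg := g1_curve h hA hd ι e D 𝒬 h𝒬'
  intro H hH ⟨b, hb⟩
  have h2 := hg (fun x => H (Φ (ι c) x)) (hH.comp (h.mp _).measurable) ⟨b, fun x => hb _⟩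
  filter_upwards [h2] with x hx
  obtain ⟨L, hL⟩ := hx
  refine ⟨L, hL.congr fun n => ?_⟩
  congr 1
  refine Finset.sum_congr rfl fun i _ => ?_
  rw [hw, map_mul]
  rfl

end group

end Pool.Agent.Zk89.MT
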