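import Pool.Agent.Zk89.MT.Sq
import Pool.Agent.Zk89.BT.Err

/-!
# The maximal inequalities for one level
-/

set_option autoImplicit false
set_option linter.unusedSectionVars false

open Finset Filter Topology

noncomputable section

namespace Pool.Agent.Zk89.MT

open Pool.Agent.Zk89.BT (DK DK_norm_le DK_near DK_far' DK_cmp DK_int ml ml_sub ml_DK ml_bound nrm
  nrm_nonneg Dom dom_sq dom_rm maximal addRight_pow th QQ QQ_pos QQ_ge dvd_QQ rI rI_pos rI_le)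

/-- the radii at the time `t` -/
def rh (t r : ℕ) : ℝ := √((2 ^ t : ℕ) : ℝ) / ((2 ^ t : ℕ) : ℝ) ^ (r + 1)

/-- the profile constant -/
def PC (D : ℕ) (K : ℝ) : Prop := 0 ≤ K ∧ ∀ (β : ℕ → ℝ) (T : Finset ℕ),
  (∀ t ∈ T, ∀ r < D, |β r| ≤ rh t r) →
  ((∀ r < D, |β r| ≤ 1 / 2) →
    ∑ t ∈ T, ‖w D (2 ^ t) β - bk D (fun r => (2 ^ t) ^ (r + 1)) β‖ ^ 2 ≤ K ^ 2) ∧
  (∀ z : ℕ → ℂ, (∀ t ∈ T, (∀ r < D, ((2 ^ t : ℕ) : ℝ) ^ (r + 1) * |β r| ≤ 1) → z t = 1) →
    (∀ t ∈ T, ¬ (∀ r < D, ((2 ^ t : ℕ) : ℝ) ^ (r + 1) * |β r| ≤ 1) → z t = 0) →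
    ∑ t ∈ T, ‖w D (2 ^ t) β - z t‖ ^ 2 ≤ K ^ 2)

theorem exists_PC (D : ℕ) : ∃ K, PC D K := by
  obtain ⟨C0, C1, m, hC0, hC1, hm, hP⟩ := profiles D
  obtain ⟨K, hK, hS⟩ := sq_sum hC0 hC1 hm
  refine ⟨K, hK, fun β T hβ => ?_⟩
  have hy0 : ∀ t : ℕ, 0 ≤ XX D (2 ^ t) β := fun t => XX_nonneg _ _ _
  have hy : ∀ t : ℕ, 2 * XX D (2 ^ t) β ≤ XX D (2 ^ (t + 1)) β := by
    intro t
    unfold XX
    rw [mul_sum]
    refine sum_le_sum fun r _ => ?_
    rw [← mul_assoc]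
    refine mul_le_mul_of_nonneg_right ?_ (abs_nonneg _)
    push_cast
    have h1 : (2 : ℝ) ^ (t + 1) = 2 * 2 ^ t := pow_succ' _ _
    rw [h1, mul_pow]
    refine mul_le_mul_of_nonneg_right ?_ (by positivity)
    exact le_self_pow₀ (by norm_num) (by omega)
  refine ⟨fun h => ?_, fun z hz1 hz0 => ?_⟩
  · refine hS (fun t => XX D (2 ^ t) β)
      (fun t => ‖w D (2 ^ t) β - bk D (fun r => (2 ^ t) ^ (r + 1)) β‖) T hy0 hy fun t ht => ?_
    obtain ⟨h1, -⟩ := hP (2 ^ t) β Nat.one_le_two_pow (hβ t ht)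
    exact ⟨norm_nonneg _, h1 h⟩
  · refine hS (fun t => XX D (2 ^ t) β) (fun t => ‖w D (2 ^ t) β - z t‖) T hy0 hy
      fun t ht => ?_
    obtain ⟨-, h1⟩ := hP (2 ^ t) β Nat.one_le_two_pow (hβ t ht)
    exact ⟨norm_nonneg _, h1 (z t) (hz1 t ht) (hz0 t ht)⟩

open Classical in
/-- the term of level `s` at the time `t` -/
def tm (D s t : ℕ) (ξ : ℕ → ℝ) : ℂ :=
  if ∃ x : (ℕ → ℤ) × ℕ, Fr D s (rh t) ξ x.1 x.2 then w D (2 ^ t) ξ else 0

theorem common (D s : ℕ) (ξ : ℕ → ℝ) (T : Finset ℕ)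
    (hρ1 : ∀ t ∈ T, ∀ r < D, rh t r ≤ 1 / (4 * 4 ^ s)) :
    ∃ (a : ℕ → ℤ) (q : ℕ), ∀ t ∈ T, (∃ x : (ℕ → ℤ) × ℕ, Fr D s (rh t) ξ x.1 x.2) →
      Fr D s (rh t) ξ a q := by
  by_cases hex : ∃ t ∈ T, ∃ x : (ℕ → ℤ) × ℕ, Fr D s (rh t) ξ x.1 x.2
  · obtain ⟨t₁, ht₁, ⟨a, q⟩, hx₁⟩ := hex
    simp only at hx₁
    refine ⟨a, q, fun t ht ⟨⟨a', q'⟩, hx⟩ => ?_⟩
    simp only at hx
    obtain ⟨h1, h2⟩ := hx.unique' hx₁ (hρ1 t ht) (hρ1 t₁ ht₁)
    refine ⟨hx₁.1, hx₁.2.1, hx₁.2.2.1, fun r hr => ?_⟩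
    have := hx.2.2.2 r hr
    rwa [h1 r hr, h2] at this
  · exact ⟨0, 0, fun t ht hx => absurd ⟨t, ht, hx⟩ hex⟩

theorem sq2 {x a b : ℝ} (hx0 : 0 ≤ x) (h : x ≤ a + b) : x ^ 2 ≤ 2 * a ^ 2 + 2 * b ^ 2 := by
  have := pow_le_pow_left₀ hx0 h 2
  nlinarith [sq_nonneg (a - b)]

theorem sq3 {x a b c : ℝ} (hx0 : 0 ≤ x) (h : x ≤ a + b + c) :
    x ^ 2 ≤ 3 * a ^ 2 + 3 * b ^ 2 + 3 * c ^ 2 := by
  have := pow_le_pow_left₀ hx0 h 2
  nlinarith [sq_nonneg (a - b), sq_nonneg (a - c), sq_nonneg (b - c)]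

variable {M : ℕ} [NeZero M]

open Classical in
/-- **High levels.** -/
theorem dom_high (D : ℕ) {K : ℝ} (hK : PC D K) {Cg κ : ℝ} (hCg : 0 ≤ Cg) (hκ : 0 ≤ κ)
    (hG : GB D Cg κ) (ξ : ZMod M → ℕ → ℝ) (f : ZMod M → ℂ) (s u : ℕ) (T : Finset ℕ)
    (hT : ∀ t ∈ T, t ≤ 2 ^ u) (e : ℕ → ℝ)
    (he0 : ∀ t, 0 ≤ e t) (hρ1 : ∀ t ∈ T, ∀ r < D, rh t r ≤ 1 / (4 * 4 ^ s))
    (hmaj : ∀ t ∈ T, ∀ (ξ : ℕ → ℝ) (a : ℕ → ℤ) (q : ℕ), Fr D s (rh t) ξ a q →
      ‖w D (2 ^ t) ξ - GS D q a * w D (2 ^ t) (fun r => ξ r - a r / q)‖ ≤ e t)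
    {E : ℝ} (hE0 : 0 ≤ E) (hE : ∑ t ∈ T, e t ^ 2 ≤ E ^ 2) :
    Dom (T : Set ℕ) (fun t => ml (fun k => tm D s t (ξ k)) f)
      ((2 * E + 2 * (Cg * κ ^ s * K) + Cg * κ ^ s * (u + 2)) * nrm f) := by
  have hg0 : 0 ≤ Cg * κ ^ s := by positivity
  have hK0 : 0 ≤ K := hK.1
  set Ω : ℕ → ZMod M → Prop := fun t k => ∃ x : (ℕ → ℤ) × ℕ,
    Fr D s (fun r => 1 / ((2 ^ t : ℕ) : ℝ) ^ (r + 1)) (ξ k) x.1 x.2 with hΩ
  have hΩn : ∀ t k, Ω (t + 1) k → Ω t k := by
    intro t k ⟨x, hx⟩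
    refine ⟨x, hx.mono fun r _ => ?_⟩
    have h2 : ((2 ^ t : ℕ) : ℝ) ≤ ((2 ^ (t + 1) : ℕ) : ℝ) := by
      exact_mod_cast Nat.pow_le_pow_right (by norm_num) (Nat.le_succ t)
    gcongr
  have hΩρ : ∀ t r : ℕ, 1 / ((2 ^ t : ℕ) : ℝ) ^ (r + 1) ≤ rh t r := by
    intro t r
    unfold rh
    have h1 : (1 : ℝ) ≤ √((2 ^ t : ℕ) : ℝ) := by
      rw [Real.one_le_sqrt]
      exact_mod_cast Nat.one_le_two_pow
    gcongr
  set G : ZMod M → ℂ := fun k => gam D s (fun _ => 1 / (4 * 4 ^ s)) (ξ k) with hGdef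
  have hGb : ∀ k, ‖G k‖ ≤ Cg * κ ^ s := fun k => gam_norm hCg hκ hG s _ _
  have hrm := dom_rm G f hg0 hGb Ω hΩn u
  have hrm' := hrm.subset (S' := (T : Set ℕ)) fun t ht => hT t ht
  -- the square function
  have hsq : ∀ k, ∑ t ∈ T, ‖tm D s t (ξ k) - (if Ω t k then G k else 0)‖ ^ 2 ≤
      (2 * E + 2 * (Cg * κ ^ s * K)) ^ 2 := by
    intro k
    obtain ⟨a, q, haq⟩ := common D s (ξ k) T hρ1
    set β : ℕ → ℝ := fun r => ξ k r - a r / q with hβ
    set T' := T.filter fun t => ∃ x : (ℕ → ℤ) × ℕ, Fr D s (rh t) (ξ k) x.1 x.2 with hT'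
    set z : ℕ → ℂ := fun t => if ∀ r < D, ((2 ^ t : ℕ) : ℝ) ^ (r + 1) * |β r| ≤ 1 then 1 else 0
      with hz
    have h0 : ∑ t ∈ T, ‖tm D s t (ξ k) - (if Ω t k then G k else 0)‖ ^ 2 =
        ∑ t ∈ T', ‖tm D s t (ξ k) - (if Ω t k then G k else 0)‖ ^ 2 := by
      symm
      refine sum_subset (filter_subset _ _) fun t ht ht' => ?_
      have h1 : ¬ ∃ x : (ℕ → ℤ) × ℕ, Fr D s (rh t) (ξ k) x.1 x.2 := fun h =>
        ht' (mem_filter.2 ⟨ht, h⟩)
      have h2 : ¬ Ω t k := fun ⟨x, hx⟩ => h1 ⟨x, hx.mono fun r _ => hΩρ t r⟩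
      rw [if_neg h2]
      unfold tm
      rw [if_neg h1]
      simp
    rw [h0]
    have hF : ∀ t ∈ T', Fr D s (rh t) (ξ k) a q := fun t ht =>
      haq t (mem_filter.1 ht).1 (mem_filter.1 ht).2
    have hterm : ∀ t ∈ T', ‖tm D s t (ξ k) - (if Ω t k then G k else 0)‖ ^ 2 ≤
        2 * e t ^ 2 + 2 * ((Cg * κ ^ s) * ‖w D (2 ^ t) β - z t‖) ^ 2 := by
      intro t ht
      have htT := (mem_filter.1 ht).1
      have hF1 := hF t ht
      have hF2 : Fr D s (fun _ => 1 / (4 * 4 ^ s)) (ξ k) a q := hF1.mono (hρ1 t htT)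
      have hGk : G k = GS D q a := gam_eq hF2 fun _ _ => le_rfl
      have hN0 : (0 : ℝ) < ((2 ^ t : ℕ) : ℝ) := by positivity
      have h4 : Ω t k ↔ ∀ r < D, ((2 ^ t : ℕ) : ℝ) ^ (r + 1) * |β r| ≤ 1 := by
        constructor
        · rintro ⟨⟨a', q'⟩, hx⟩ r hr
          simp only at hx
          obtain ⟨h5, h6⟩ := (hx.mono fun r _ => hΩρ t r).unique' hF1 (hρ1 t htT) (hρ1 t htT)
          have h7 := hx.2.2.2 r hr
          rw [h5 r hr, h6, le_div_iff₀ (by positivity)] at h7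
          rw [mul_comm]
          exact h7
        · intro h5
          refine ⟨(a, q), hF1.1, hF1.2.1, hF1.2.2.1, fun r hr => ?_⟩
          rw [le_div_iff₀ (by positivity), mul_comm]
          exact h5 r hr
      have h5 : (if Ω t k then G k else 0) = GS D q a * z t := by
        by_cases h6 : Ω t k
        · rw [if_pos h6, hz]
          simp only
          rw [if_pos (h4.1 h6), hGk, mul_one]
        · rw [if_neg h6, hz]
          simp only
          rw [if_neg (fun h7 => h6 (h4.2 h7)), mul_zero]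
      have h6 : tm D s t (ξ k) = w D (2 ^ t) (ξ k) := if_pos (mem_filter.1 ht).2
      rw [h5, h6]
      refine sq2 (norm_nonneg _) ?_
      have e1 : w D (2 ^ t) (ξ k) - GS D q a * z t =
          (w D (2 ^ t) (ξ k) - GS D q a * w D (2 ^ t) β) +
          GS D q a * (w D (2 ^ t) β - z t) := by ring
      rw [e1]
      refine (norm_add_le _ _).trans (add_le_add (hmaj t htT _ a q hF1) ?_)
      rw [norm_mul]
      exact mul_le_mul_of_nonneg_right (hG s _ _ _ _ hF1) (norm_nonneg _)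
    have hKb := (hK.2 β T' (fun t ht r hr => (hF t ht).2.2.2 r hr)).2 z
      (fun t _ h => if_pos h) (fun t _ h => if_neg h)
    calc ∑ t ∈ T', ‖tm D s t (ξ k) - (if Ω t k then G k else 0)‖ ^ 2 ≤
        ∑ t ∈ T', (2 * e t ^ 2 + 2 * ((Cg * κ ^ s) * ‖w D (2 ^ t) β - z t‖) ^ 2) :=
          sum_le_sum hterm
      _ = 2 * ∑ t ∈ T', e t ^ 2 + 2 * (Cg * κ ^ s) ^ 2 * ∑ t ∈ T', ‖w D (2 ^ t) β - z t‖ ^ 2 := by
          rw [sum_add_distrib, ← mul_sum]
          congr 1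
          rw [mul_sum]
          refine sum_congr rfl fun t _ => ?_
          rw [mul_pow]
          ring
      _ ≤ 2 * E ^ 2 + 2 * (Cg * κ ^ s) ^ 2 * K ^ 2 := by
          have h7 : ∑ t ∈ T', e t ^ 2 ≤ E ^ 2 :=
            (sum_le_sum_of_subset_of_nonneg (filter_subset _ _) fun _ _ _ => sq_nonneg _).trans hE
          gcongr
      _ ≤ (2 * E + 2 * (Cg * κ ^ s * K)) ^ 2 := by
          have : 0 ≤ E * (Cg * κ ^ s * K) := by positivity
          nlinarith [sq_nonneg E, sq_nonneg (Cg * κ ^ s * K)]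
  have hd := dom_sq T (fun t k => tm D s t (ξ k) - (if Ω t k then G k else 0)) f hsq
  have hsum := hd.add hrm' (by have := nrm_nonneg f; positivity)
    (by have := nrm_nonneg f; positivity)
  have e2 : (2 * E + 2 * (Cg * κ ^ s * K)) * nrm f + Cg * κ ^ s * (u + 2) * nrm f =
      (2 * E + 2 * (Cg * κ ^ s * K) + Cg * κ ^ s * (u + 2)) * nrm f := by ring
  rw [e2] at hsum
  refine hsum.congr fun t _ x => ?_
  rw [ml_sub]
  ring

theorem bk_int (D : ℕ) (L : ℕ → ℕ) {Q q : ℕ} (hq : 1 ≤ q) (hqQ : q ∣ Q) (a : ℕ → ℤ)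
    (ξ : ℕ → ℝ) : bk D L (fun r => Q * ξ r) = bk D L (fun r => Q * (ξ r - a r / q)) :=
  prod_congr rfl fun r _ => DK_int (L r) Q q hq hqQ (a r) (ξ r)

/-- **Low levels.** -/
theorem dom_low (D : ℕ) {K : ℝ} (hK : PC D K) {Cg κ : ℝ} (hCg : 0 ≤ Cg) (hκ : 0 ≤ κ)
    (hG : GB D Cg κ) (B : ℕ → ℕ) (f : ZMod M → ℂ) (s : ℕ) (T : Finset ℕ)
    (e : ℕ → ℝ) (hρ1 : ∀ t ∈ T, ∀ r < D, rh t r ≤ rI s)
    (hmaj : ∀ t ∈ T, ∀ (ξ : ℕ → ℝ) (a : ℕ → ℤ) (q : ℕ), Fr D s (rh t) ξ a q →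
      ‖w D (2 ^ t) ξ - GS D q a * w D (2 ^ t) (fun r => ξ r - a r / q)‖ ≤ e t)
    (hQ : ∀ t ∈ T, 2 * QQ s ≤ 2 ^ t)
    (he1 : ∀ t ∈ T, 2 / √((2 ^ t : ℕ) : ℝ) ≤ e t)
    (he2 : ∀ t ∈ T, ∑ r ∈ range D, (2 * Real.pi * (QQ s * rh t r) +
      2 * (QQ s / ((2 ^ t : ℕ) : ℝ) ^ (r + 1))) ≤ e t)
    {E : ℝ} (hE0 : 0 ≤ E) (hE : ∑ t ∈ T, e t ^ 2 ≤ E ^ 2) :
    Dom (T : Set ℕ) (fun t => ml (fun k => tm D s t (fun r => B r * th k)) f)
      ((3 * E + 3 * (Cg * κ ^ s * K) + 2 ^ D * (Cg * κ ^ s)) * nrm f) := by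
  classical
  have hg0 : 0 ≤ Cg * κ ^ s := by positivity
  have hK0 : 0 ≤ K := hK.1
  have hQ0 := QQ_pos s
  have hQ0' : (0 : ℝ) < QQ s := by exact_mod_cast hQ0
  have hrI : rI s = 1 / (4 * QQ s) := rfl
  have hrI4 := rI_le s
  set ξ : ZMod M → ℕ → ℝ := fun k r => B r * th k with hξ
  set G : ZMod M → ℂ := fun k => gam D s (fun _ => rI s) (ξ k) with hGdef
  have hGb : ∀ k, ‖G k‖ ≤ Cg * κ ^ s := fun k => gam_norm hCg hκ hG s _ _
  have hbox := dom_box G f hg0 hGb (QQ s) B (fun t r => (2 ^ t) ^ (r + 1) / QQ s) T D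
  have hρ4 : ∀ t ∈ T, ∀ r < D, rh t r ≤ 1 / (4 * 4 ^ s) := fun t ht r hr =>
    (hρ1 t ht r hr).trans hrI4
  have he0 : ∀ t ∈ T, 0 ≤ e t := fun t ht => le_trans (by positivity) (he1 t ht)
  have hrIhalf : rI s ≤ 1 / 2 := by
    refine hrI4.trans ?_
    have h4 : (1 : ℝ) ≤ 4 ^ s := one_le_pow₀ (by norm_num)
    rw [div_le_div_iff₀ (by positivity) (by norm_num)]
    linarith
  have hsq : ∀ k, ∑ t ∈ T, ‖tm D s t (ξ k) - G k *
      bk D (fun r => (2 ^ t) ^ (r + 1) / QQ s) (fun r => QQ s * (B r * th k))‖ ^ 2 ≤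
      (3 * E + 3 * (Cg * κ ^ s * K)) ^ 2 := by
    intro k
    obtain ⟨a, q, haq⟩ := common D s (ξ k) T hρ4
    set β : ℕ → ℝ := fun r => ξ k r - a r / q with hβ
    set T' := T.filter fun t => ∃ x : (ℕ → ℤ) × ℕ, Fr D s (rh t) (ξ k) x.1 x.2 with hT'
    have hF : ∀ t ∈ T', Fr D s (rh t) (ξ k) a q := fun t ht =>
      haq t (mem_filter.1 ht).1 (mem_filter.1 ht).2
    have hterm : ∀ t ∈ T, ‖tm D s t (ξ k) - G k *
        bk D (fun r => (2 ^ t) ^ (r + 1) / QQ s) (fun r => QQ s * (B r * th k))‖ ^ 2 ≤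
        6 * e t ^ 2 + 3 * ((Cg * κ ^ s) * (if t ∈ T' then
          ‖w D (2 ^ t) β - bk D (fun r => (2 ^ t) ^ (r + 1)) β‖ else 0)) ^ 2 := by
      intro t ht
      have hN0 : (0 : ℝ) < ((2 ^ t : ℕ) : ℝ) := by positivity
      have hN1 : (1 : ℝ) ≤ ((2 ^ t : ℕ) : ℝ) := by exact_mod_cast Nat.one_le_two_pow
      have hQX : ∀ r : ℕ, 2 * QQ s ≤ (2 ^ t) ^ (r + 1) := fun r =>
        (hQ t ht).trans (Nat.le_self_pow (by omega) _)
      by_cases h1 : ∃ x : (ℕ → ℤ) × ℕ, Fr D s (rh t) (ξ k) x.1 x.2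
      · have htT' : t ∈ T' := mem_filter.2 ⟨ht, h1⟩
        rw [if_pos htT']
        have hF1 := hF t htT'
        have hF2 : Fr D s (fun _ => rI s) (ξ k) a q := hF1.mono (hρ1 t ht)
        have hGk : G k = GS D q a := gam_eq hF2 fun _ _ => hrI4
        have h6 : tm D s t (ξ k) = w D (2 ^ t) (ξ k) := if_pos h1
        have h7 : bk D (fun r => (2 ^ t) ^ (r + 1) / QQ s) (fun r => QQ s * (B r * th k)) =
            bk D (fun r => (2 ^ t) ^ (r + 1) / QQ s) (fun r => QQ s * β r) :=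
          bk_int D _ hF1.1 (dvd_QQ hF1.1 hF1.le) a (ξ k)
        rw [h6, hGk, h7]
        have h8 : ‖bk D (fun r => (2 ^ t) ^ (r + 1)) β -
            bk D (fun r => (2 ^ t) ^ (r + 1) / QQ s) (fun r => QQ s * β r)‖ ≤ e t := by
          refine le_trans ?_ (he2 t ht)
          refine (prod_diff D _ _ (fun _ _ => DK_norm_le _ _) (fun _ _ => DK_norm_le _ _)).trans
            (sum_le_sum fun r hr => ?_)
          have h9 := DK_cmp (X := (2 ^ t) ^ (r + 1)) hQ0 (by have := hQX r; omega) (β r)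
          refine h9.trans ?_
          have h10 : |β r| ≤ rh t r := hF1.2.2.2 r (mem_range.1 hr)
          have hpi := Real.pi_pos
          push_cast
          gcongr
        have h9 : ‖GS D q a‖ ≤ 1 := GS_norm_le _ _ _
        have h10 : ‖w D (2 ^ t) (ξ k) - GS D q a *
            bk D (fun r => (2 ^ t) ^ (r + 1) / QQ s) (fun r => QQ s * β r)‖ ≤
            e t + (Cg * κ ^ s) * ‖w D (2 ^ t) β - bk D (fun r => (2 ^ t) ^ (r + 1)) β‖ +
              e t := by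
          have e1 : w D (2 ^ t) (ξ k) - GS D q a *
              bk D (fun r => (2 ^ t) ^ (r + 1) / QQ s) (fun r => QQ s * β r) =
              (w D (2 ^ t) (ξ k) - GS D q a * w D (2 ^ t) β) +
              GS D q a * (w D (2 ^ t) β - bk D (fun r => (2 ^ t) ^ (r + 1)) β) +
              GS D q a * (bk D (fun r => (2 ^ t) ^ (r + 1)) β -
                bk D (fun r => (2 ^ t) ^ (r + 1) / QQ s) (fun r => QQ s * β r)) := by ring
          rw [e1]
          refine (norm_add_le _ _).trans (add_le_add ((norm_add_le _ _).trans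
            (add_le_add (hmaj t ht _ a q hF1) ?_)) ?_)
          · rw [norm_mul]
            exact mul_le_mul_of_nonneg_right (hG s _ _ _ _ hF1) (norm_nonneg _)
          · rw [norm_mul]
            calc ‖GS D q a‖ * _ ≤ 1 * e t := by gcongr
              _ = e t := one_mul _
        have h11 := sq3 (norm_nonneg _) h10
        linarith
      · have htT' : t ∉ T' := fun h => h1 (mem_filter.1 h).2
        rw [if_neg htT']
        have h6 : tm D s t (ξ k) = 0 := if_neg h1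
        rw [h6, zero_sub, norm_neg]
        have hle : ‖G k * bk D (fun r => (2 ^ t) ^ (r + 1) / QQ s)
            (fun r => QQ s * (B r * th k))‖ ≤ e t := by
          by_cases h2 : ∃ x : (ℕ → ℤ) × ℕ, Fr D s (fun _ => rI s) (ξ k) x.1 x.2
          · obtain ⟨⟨a', q'⟩, hx⟩ := h2
            simp only at hx
            have hGk : G k = GS D q' a' := gam_eq hx fun _ _ => hrI4
            have h7 : bk D (fun r => (2 ^ t) ^ (r + 1) / QQ s) (fun r => QQ s * (B r * th k)) =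
                bk D (fun r => (2 ^ t) ^ (r + 1) / QQ s)
                  (fun r => QQ s * (ξ k r - a' r / q')) :=
              bk_int D _ hx.1 (dvd_QQ hx.1 hx.le) a' (ξ k)
            rw [h7, hGk, norm_mul]
            have h3 : ∃ r < D, rh t r < |ξ k r - a' r / q'| := by
              by_contra hcon
              push Not at hcon
              exact h1 ⟨(a', q'), hx.1, hx.2.1, hx.2.2.1, hcon⟩
            obtain ⟨r, hr, hr1⟩ := h3
            set b := ξ k r - a' r / q' with hb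
            have hrh0 : 0 < rh t r := by
              unfold rh
              positivity
            have hb0 : 0 < |b| := lt_trans hrh0 hr1
            have hbI : |b| ≤ rI s := hx.2.2.2 r hr
            have h8 : |(QQ s : ℝ) * b| = QQ s * |b| := by
              rw [abs_mul, abs_of_pos hQ0']
            have hL1 : 0 < (2 ^ t) ^ (r + 1) / QQ s :=
              Nat.div_pos (by have := hQX r; omega) hQ0
            have h9 := DK_far' (X := (2 ^ t) ^ (r + 1) / QQ s) hL1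
              (β := QQ s * b) (by
                intro h0
                rw [h0, abs_zero] at h8
                have : 0 < (QQ s : ℝ) * |b| := by positivity
                linarith) (by
                rw [h8]
                calc (QQ s : ℝ) * |b| ≤ QQ s * rI s := by gcongr
                  _ = 1 / 4 := by rw [hrI]; field_simp
                  _ ≤ 1 / 2 := by norm_num)
            have h10 : ‖bk D (fun r => (2 ^ t) ^ (r + 1) / QQ s)
                (fun r => QQ s * (ξ k r - a' r / q'))‖ ≤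
                ‖DK ((2 ^ t) ^ (r + 1) / QQ s) (QQ s * b)‖ := by
              unfold bk
              rw [← mul_prod_erase _ _ (mem_range.2 hr), norm_mul]
              refine mul_le_of_le_one_right (norm_nonneg _) ?_
              rw [norm_prod]
              exact prod_le_one (fun _ _ => norm_nonneg _) fun _ _ => DK_norm_le _ _
            have h11 : ((2 ^ t : ℕ) : ℝ) ^ (r + 1) ≤
                2 * ((((2 ^ t) ^ (r + 1) / QQ s : ℕ) : ℝ) * QQ s) := by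
              have h12 := Nat.lt_div_mul_add (a := (2 ^ t) ^ (r + 1)) hQ0
              have h13 := hQX r
              have h14 : (2 ^ t) ^ (r + 1) ≤ 2 * ((2 ^ t) ^ (r + 1) / QQ s * QQ s) := by omega
              exact_mod_cast h14
            have h12 : 1 / ((((2 ^ t) ^ (r + 1) / QQ s : ℕ) : ℝ) * |(QQ s : ℝ) * b|) ≤ e t := by
              refine le_trans ?_ (he1 t ht)
              rw [h8]
              have hsq0 : 0 < √((2 ^ t : ℕ) : ℝ) := Real.sqrt_pos.2 hN0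
              have hL1' : (0 : ℝ) < (((2 ^ t) ^ (r + 1) / QQ s : ℕ) : ℝ) := by
                exact_mod_cast hL1
              rw [div_le_div_iff₀ (by positivity) hsq0, one_mul]
              have h15 : √((2 ^ t : ℕ) : ℝ) ≤ ((2 ^ t : ℕ) : ℝ) ^ (r + 1) * |b| := by
                unfold rh at hr1
                rw [div_lt_iff₀ (by positivity)] at hr1
                linarith
              calc √((2 ^ t : ℕ) : ℝ) ≤ ((2 ^ t : ℕ) : ℝ) ^ (r + 1) * |b| := h15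
                _ ≤ 2 * ((((2 ^ t) ^ (r + 1) / QQ s : ℕ) : ℝ) * QQ s) * |b| := by gcongr
                _ = _ := by ring
            calc ‖GS D q' a'‖ * ‖bk D (fun r => (2 ^ t) ^ (r + 1) / QQ s)
                  (fun r => QQ s * (ξ k r - a' r / q'))‖ ≤ 1 * e t := by
                  have := GS_norm_le D q' a'
                  have := (h10.trans h9).trans h12
                  gcongr
              _ = e t := one_mul _
          · have hGk : G k = 0 := gam_zero h2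
            rw [hGk, zero_mul, norm_zero]
            exact he0 t ht
        have h7 := pow_le_pow_left₀ (norm_nonneg _) hle 2
        have : 0 ≤ e t ^ 2 := sq_nonneg _
        rw [mul_zero]
        linarith
    have hKb := (hK.2 β T' (fun t ht r hr => (hF t ht).2.2.2 r hr)).1
    have hKb' : ∑ t ∈ T', ‖w D (2 ^ t) β - bk D (fun r => (2 ^ t) ^ (r + 1)) β‖ ^ 2 ≤ K ^ 2 := by
      rcases T'.eq_empty_or_nonempty with h0 | ⟨t, ht⟩
      · rw [h0, sum_empty]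
        positivity
      · refine hKb fun r hr => ?_
        exact ((hF t ht).2.2.2 r hr).trans ((hρ1 t (mem_filter.1 ht).1 r hr).trans hrIhalf)
    have hsum2 : ∑ t ∈ T, ((if t ∈ T' then
          ‖w D (2 ^ t) β - bk D (fun r => (2 ^ t) ^ (r + 1)) β‖ else 0) : ℝ) ^ 2 ≤ K ^ 2 := by
      refine le_trans (le_of_eq ?_) hKb'
      have e3 : ∀ t ∈ T, ((if t ∈ T' then
          ‖w D (2 ^ t) β - bk D (fun r => (2 ^ t) ^ (r + 1)) β‖ else 0) : ℝ) ^ 2 =
          if t ∈ T' then ‖w D (2 ^ t) β - bk D (fun r => (2 ^ t) ^ (r + 1)) β‖ ^ 2 else 0 := by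
        intro t _
        split_ifs <;> simp
      rw [sum_congr rfl e3, ← sum_filter, filter_mem_eq_inter,
        inter_eq_right.2 (filter_subset _ _)]
    calc _ ≤ ∑ t ∈ T, (6 * e t ^ 2 + 3 * ((Cg * κ ^ s) * (if t ∈ T' then
          ‖w D (2 ^ t) β - bk D (fun r => (2 ^ t) ^ (r + 1)) β‖ else 0)) ^ 2) :=
          sum_le_sum hterm
      _ = 6 * ∑ t ∈ T, e t ^ 2 + 3 * (Cg * κ ^ s) ^ 2 * ∑ t ∈ T, ((if t ∈ T' then
          ‖w D (2 ^ t) β - bk D (fun r => (2 ^ t) ^ (r + 1)) β‖ else 0) : ℝ) ^ 2 := by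
          rw [sum_add_distrib, ← mul_sum]
          congr 1
          rw [mul_sum]
          refine sum_congr rfl fun t _ => ?_
          rw [mul_pow]
          ring
      _ ≤ 6 * E ^ 2 + 3 * (Cg * κ ^ s) ^ 2 * K ^ 2 := by gcongr
      _ ≤ (3 * E + 3 * (Cg * κ ^ s * K)) ^ 2 := by
          have : 0 ≤ E * (Cg * κ ^ s * K) := by positivity
          nlinarith [sq_nonneg E, sq_nonneg (Cg * κ ^ s * K)]
  have hd := dom_sq T (fun t k => tm D s t (ξ k) - G k *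
      bk D (fun r => (2 ^ t) ^ (r + 1) / QQ s) (fun r => QQ s * (B r * th k))) f hsq
  have hsum := hd.add hbox (by have := nrm_nonneg f; positivity)
    (by have := nrm_nonneg f; positivity)
  have e2 : (3 * E + 3 * (Cg * κ ^ s * K)) * nrm f + 2 ^ D * (Cg * κ ^ s * nrm f) =
      (3 * E + 3 * (Cg * κ ^ s * K) + 2 ^ D * (Cg * κ ^ s)) * nrm f := by ring
  rw [e2] at hsum
  refine hsum.congr fun t _ x => ?_
  rw [ml_sub]
  ring

end Pool.Agent.Zk89.MT
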