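import Pool.Agent.Zk89.MT.Lv
import Pool.Agent.Zk89.BT.KI

/-!
# The maximal inequality along the moment curve
-/

set_option autoImplicit false
set_option linter.unusedSectionVars false

open Finset Filter Topology

noncomputable section

namespace Pool.Agent.Zk89.MT

open Pool.Agent.Zk89.BT (ml ml_sub ml_sum ml_smul ml_shift ml_add nrm nrm_nonneg Dom dom_sq th QQ
  QQ_pos QQ_ge rI rI_pos rI_le SL Lc asym sum_inv_sq QQ_zero clog_pow_le le_clog_of_pow_le)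
open Pool.Agent.Helper602.MK (ee)

/-- everything that is needed at the time `t` -/
structure Bg (D C m t : ℕ) : Prop where
  t_pos : 1 ≤ t
  C_pos : 1 ≤ C
  big : ∀ s, 8 ^ s ≤ t → 100 * ((D : ℝ) + 1) * ((C * t ^ m : ℕ) : ℝ) ^ 2 * (t : ℝ) ^ 2 * QQ s ≤
    √((2 ^ t : ℕ) : ℝ)

theorem lc2 : Lc (fun t => 2 ^ t) 2 where
  one_lt := by norm_num
  pos := fun t => Nat.one_le_two_pow
  mono := fun a b h => Nat.pow_le_pow_right (by norm_num) h
  le := fun t => by push_cast; exact le_rfl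
  ge := fun t => by
    push_cast
    have : (0 : ℝ) < 2 ^ t := by positivity
    linarith

theorem exists_Bg (D : ℕ) {C : ℕ} (hC : 1 ≤ C) (m : ℕ) :
    ∃ t₀ : ℕ, 1 ≤ t₀ ∧ ∀ t ≥ t₀, Bg D C m t := by
  obtain ⟨t₂, ht₂, hasym⟩ := asym lc2 (100 * ((D : ℝ) + 1) * (C : ℝ) ^ 2) (2 * m + 2)
  refine ⟨t₂, ht₂, fun t ht => ⟨ht₂.trans ht, hC, fun s hs => ?_⟩⟩
  refine le_trans (le_of_eq ?_) (hasym t ht s hs)
  push_cast
  ring

section facts

variable {D C m t : ℕ}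

theorem Bg.n_pos (hb : Bg D C m t) : 1 ≤ C * t ^ m :=
  Nat.one_le_iff_ne_zero.2 (by
    have := hb.t_pos
    have := hb.C_pos
    positivity)

theorem Bg.facts (hb : Bg D C m t) :
    1 ≤ √((2 ^ t : ℕ) : ℝ) ∧ √((2 ^ t : ℕ) : ℝ) * √((2 ^ t : ℕ) : ℝ) = ((2 ^ t : ℕ) : ℝ) ∧
    100 * ((D : ℝ) + 1) * ((C * t ^ m : ℕ) : ℝ) ^ 2 * (t : ℝ) ^ 2 ≤ √((2 ^ t : ℕ) : ℝ) ∧
    ∀ r, rh t r ≤ 1 / √((2 ^ t : ℕ) : ℝ) := by
  have h1 : (1 : ℝ) ≤ ((2 ^ t : ℕ) : ℝ) := by exact_mod_cast Nat.one_le_two_pow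
  have h2 : 1 ≤ √((2 ^ t : ℕ) : ℝ) := by rwa [Real.one_le_sqrt]
  have h3 : √((2 ^ t : ℕ) : ℝ) * √((2 ^ t : ℕ) : ℝ) = ((2 ^ t : ℕ) : ℝ) :=
    Real.mul_self_sqrt (by linarith)
  refine ⟨h2, h3, ?_, fun r => ?_⟩
  · have := hb.big 0 (by simpa using hb.t_pos)
    rwa [QQ_zero, Nat.cast_one, mul_one] at this
  · unfold rh
    rw [div_le_div_iff₀ (by positivity) (by positivity), h3, one_mul]
    exact le_self_pow₀ h1 (by omega)

theorem Bg.pow_le (hb : Bg D C m t) {s : ℕ} (hs : s ≤ SL C m t) :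
    (2 : ℝ) ^ s ≤ 2 * ((C * t ^ m : ℕ) : ℝ) := by
  have h1 : 2 ^ s ≤ 2 * (C * t ^ m) :=
    (Nat.pow_le_pow_right (by norm_num) hs).trans (clog_pow_le hb.n_pos)
  exact_mod_cast h1

theorem Bg.rad (hb : Bg D C m t) {s : ℕ} (hs : s ≤ SL C m t) :
    ∀ r < D, rh t r ≤ 1 / (4 * 4 ^ s) := by
  intro r _
  obtain ⟨f1, -, f3, f4⟩ := hb.facts
  refine (f4 r).trans ?_
  have h1 := hb.pow_le hs
  have hn : (1 : ℝ) ≤ ((C * t ^ m : ℕ) : ℝ) := by exact_mod_cast hb.n_pos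
  have ht : (1 : ℝ) ≤ t := by exact_mod_cast hb.t_pos
  have h4 : (4 : ℝ) ^ s = 2 ^ s * 2 ^ s := by rw [← mul_pow]; norm_num
  have hD : (0 : ℝ) ≤ D := Nat.cast_nonneg _
  have h5 : 4 * (4 : ℝ) ^ s ≤ √((2 ^ t : ℕ) : ℝ) := by
    refine le_trans ?_ f3
    set n := ((C * t ^ m : ℕ) : ℝ) with hnn
    have ht2 : (1 : ℝ) ≤ (t : ℝ) ^ 2 := one_le_pow₀ ht
    calc 4 * (4 : ℝ) ^ s = 4 * (2 ^ s * 2 ^ s) := by rw [h4]
      _ ≤ 4 * ((2 * n) * (2 * n)) := by gcongr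
      _ = 16 * 1 * n ^ 2 * 1 := by ring
      _ ≤ 100 * ((D : ℝ) + 1) * n ^ 2 * (t : ℝ) ^ 2 := by gcongr <;> linarith
  exact one_div_le_one_div_of_le (by positivity) h5

theorem Bg.maj (hb : Bg D C m t) {s : ℕ} (hs : s ≤ SL C m t) (ξ : ℕ → ℝ) (a : ℕ → ℤ) (q : ℕ)
    (hF : Fr D s (rh t) ξ a q) :
    ‖w D (2 ^ t) ξ - GS D q a * w D (2 ^ t) (fun r => ξ r - a r / q)‖ ≤ 1 / 2 ^ s * (1 / t) := by
  obtain ⟨f1, f2, f3, f4⟩ := hb.facts
  have h1 := hb.pow_le hs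
  have hn : (1 : ℝ) ≤ ((C * t ^ m : ℕ) : ℝ) := by exact_mod_cast hb.n_pos
  have ht : (1 : ℝ) ≤ t := by exact_mod_cast hb.t_pos
  have h4 : (4 : ℝ) ^ s = 2 ^ s * 2 ^ s := by rw [← mul_pow]; norm_num
  have hD : (0 : ℝ) ≤ D := Nat.cast_nonneg _
  have h5 := w_major D (N := 2 ^ t) Nat.one_le_two_pow hF.1 a (fun r => ξ r - a r / q)
  have e1 : (fun r => (a r : ℝ) / q + (ξ r - a r / q)) = ξ := by
    funext r
    ring
  rw [e1] at h5
  refine h5.trans ?_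
  have hX : XX D (2 ^ t) (fun r => ξ r - a r / q) ≤ D * √((2 ^ t : ℕ) : ℝ) := by
    unfold XX
    have h6 : ∀ r ∈ range D, ((2 ^ t : ℕ) : ℝ) ^ (r + 1) * |ξ r - a r / q| ≤
        √((2 ^ t : ℕ) : ℝ) := by
      intro r hr
      have h7 := hF.2.2.2 r (mem_range.1 hr)
      unfold rh at h7
      rw [le_div_iff₀ (by positivity)] at h7
      linarith
    refine (sum_le_sum h6).trans ?_
    rw [sum_const, card_range, nsmul_eq_mul]
  set R := √((2 ^ t : ℕ) : ℝ) with hR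
  have hR0 : 0 < R := by linarith
  have hpi := Real.pi_pos
  have hpi4 := Real.pi_lt_d2
  have hq : (q : ℝ) ≤ 2 ^ s := by exact_mod_cast hF.le
  set n := ((C * t ^ m : ℕ) : ℝ) with hnn
  have h6 : 1 + 2 * Real.pi * XX D (2 ^ t) (fun r => ξ r - a r / q) ≤ (1 + 7 * D) * R := by
    calc 1 + 2 * Real.pi * XX D (2 ^ t) (fun r => ξ r - a r / q) ≤
        1 + 2 * Real.pi * (D * R) := by gcongr
      _ ≤ R + 7 * (D * R) := by
        have : 0 ≤ D * R := by positivity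
        nlinarith
      _ = _ := by ring
  have h7 : 2 * (4 : ℝ) ^ s * (1 + 7 * D) * t ≤ R := by
    refine le_trans ?_ f3
    calc 2 * (4 : ℝ) ^ s * (1 + 7 * D) * t = 2 * (2 ^ s * 2 ^ s) * (1 + 7 * D) * t := by rw [h4]
      _ ≤ 2 * ((2 * n) * (2 * n)) * (1 + 7 * D) * t := by gcongr
      _ = 8 * (1 + 7 * D) * n ^ 2 * t := by ring
      _ ≤ 100 * ((D : ℝ) + 1) * n ^ 2 * (t : ℝ) ^ 2 := by
        have h8 : (t : ℝ) ≤ (t : ℝ) ^ 2 := le_self_pow₀ ht (by norm_num)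
        have h9 : 8 * (1 + 7 * (D : ℝ)) ≤ 100 * ((D : ℝ) + 1) := by linarith
        gcongr
  have hN : ((2 ^ t : ℕ) : ℝ) = R * R := f2.symm
  rw [hN]
  calc 2 * (q : ℝ) / (R * R) * (1 + 2 * Real.pi * XX D (2 ^ t) (fun r => ξ r - a r / q)) ≤
      2 * 2 ^ s / (R * R) * ((1 + 7 * D) * R) := by
        have := XX_nonneg D (2 ^ t) (fun r => ξ r - a r / q)
        gcongr
    _ = 2 * 2 ^ s * (1 + 7 * D) / R := by field_simp
    _ ≤ 1 / 2 ^ s * (1 / t) := by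
        rw [div_mul_div_comm, one_mul, div_le_div_iff₀ hR0 (by positivity)]
        calc 2 * 2 ^ s * (1 + 7 * (D : ℝ)) * (2 ^ s * t) = 2 * (2 ^ s * 2 ^ s) * (1 + 7 * D) * t := by
              ring
          _ = 2 * (4 : ℝ) ^ s * (1 + 7 * D) * t := by rw [h4]
          _ ≤ 1 * R := by linarith

theorem Bg.low (hb : Bg D C m t) {s : ℕ} (hs : 8 ^ s ≤ t) :
    (∀ r < D, rh t r ≤ rI s) ∧ 2 * QQ s ≤ 2 ^ t ∧
    2 / √((2 ^ t : ℕ) : ℝ) ≤ 1 / 2 ^ s * (1 / t) ∧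
    ∑ r ∈ range D, (2 * Real.pi * (QQ s * rh t r) + 2 * (QQ s / ((2 ^ t : ℕ) : ℝ) ^ (r + 1))) ≤
      1 / 2 ^ s * (1 / t) := by
  obtain ⟨f1, f2, f3, f4⟩ := hb.facts
  have hbg := hb.big s hs
  have hn : (1 : ℝ) ≤ ((C * t ^ m : ℕ) : ℝ) := by exact_mod_cast hb.n_pos
  have ht : (1 : ℝ) ≤ t := by exact_mod_cast hb.t_pos
  have hD : (0 : ℝ) ≤ D := Nat.cast_nonneg _
  have hQ1 : (1 : ℝ) ≤ QQ s := by exact_mod_cast QQ_pos s
  set R := √((2 ^ t : ℕ) : ℝ) with hR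
  have hR0 : 0 < R := by linarith
  set n := ((C * t ^ m : ℕ) : ℝ) with hnn
  have hn2 : (1 : ℝ) ≤ n ^ 2 := one_le_pow₀ hn
  have ht2 : (1 : ℝ) ≤ (t : ℝ) ^ 2 := one_le_pow₀ ht
  have g1 : 100 * ((D : ℝ) + 1) * (t : ℝ) ^ 2 * QQ s ≤ R := by
    refine le_trans ?_ hbg
    have : 100 * ((D : ℝ) + 1) * 1 * (t : ℝ) ^ 2 * QQ s ≤
        100 * ((D : ℝ) + 1) * n ^ 2 * (t : ℝ) ^ 2 * QQ s := by gcongr
    linarith
  have g2 : 100 * (QQ s : ℝ) ≤ R := by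
    refine le_trans ?_ g1
    calc 100 * (QQ s : ℝ) = 100 * 1 * 1 * QQ s := by ring
      _ ≤ 100 * ((D : ℝ) + 1) * (t : ℝ) ^ 2 * QQ s := by gcongr; linarith
  have g3 : 100 * (t : ℝ) ^ 2 ≤ R := by
    refine le_trans ?_ g1
    calc 100 * (t : ℝ) ^ 2 = 100 * 1 * (t : ℝ) ^ 2 * 1 := by ring
      _ ≤ 100 * ((D : ℝ) + 1) * (t : ℝ) ^ 2 * QQ s := by gcongr; linarith
  have h2s : (2 : ℝ) ^ s ≤ t := by
    have h1 : 2 ^ s ≤ t := (Nat.pow_le_pow_left (by norm_num) s).trans hs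
    exact_mod_cast h1
  refine ⟨fun r _ => ?_, ?_, ?_, ?_⟩
  · refine (f4 r).trans ?_
    unfold rI
    exact one_div_le_one_div_of_le (by positivity) (by linarith)
  · have h1 : 2 * (QQ s : ℝ) ≤ ((2 ^ t : ℕ) : ℝ) := by
      rw [← f2]
      nlinarith
    exact_mod_cast h1
  · rw [div_mul_div_comm, one_mul, div_le_div_iff₀ hR0 (by positivity)]
    calc 2 * (2 ^ s * (t : ℝ)) ≤ 2 * (t * t) := by gcongr
      _ ≤ 1 * R := by nlinarith
  · have hpi := Real.pi_pos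
    have hpi4 := Real.pi_lt_d2
    have h1 : ∀ r ∈ range D, 2 * Real.pi * (QQ s * rh t r) +
        2 * (QQ s / ((2 ^ t : ℕ) : ℝ) ^ (r + 1)) ≤ 9 * QQ s / R := by
      intro r _
      have h2 := f4 r
      have h3 : 1 / ((2 ^ t : ℕ) : ℝ) ^ (r + 1) ≤ 1 / R := by
        have h4 : R ≤ ((2 ^ t : ℕ) : ℝ) ^ (r + 1) := by
          have h5 : (1 : ℝ) ≤ ((2 ^ t : ℕ) : ℝ) := by exact_mod_cast Nat.one_le_two_pow
          have h6 : ((2 ^ t : ℕ) : ℝ) ≤ ((2 ^ t : ℕ) : ℝ) ^ (r + 1) := le_self_pow₀ h5 (by omega)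
          have h7 : R ≤ R * R := by nlinarith
          linarith
        exact one_div_le_one_div_of_le hR0 h4
      have h4 : (QQ s : ℝ) / ((2 ^ t : ℕ) : ℝ) ^ (r + 1) ≤ QQ s * (1 / R) := by
        rw [div_eq_mul_one_div]
        gcongr
      calc 2 * Real.pi * (QQ s * rh t r) + 2 * (QQ s / ((2 ^ t : ℕ) : ℝ) ^ (r + 1)) ≤
          2 * Real.pi * (QQ s * (1 / R)) + 2 * (QQ s * (1 / R)) := by gcongr
        _ = (2 * Real.pi + 2) * (QQ s * (1 / R)) := by ring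
        _ ≤ 9 * (QQ s * (1 / R)) := by
          have : 0 ≤ (QQ s : ℝ) * (1 / R) := by positivity
          nlinarith
        _ = _ := by ring
    refine (sum_le_sum h1).trans ?_
    rw [sum_const, card_range, nsmul_eq_mul, div_mul_div_comm, one_mul, ← mul_div_assoc,
      div_le_div_iff₀ hR0 (by positivity)]
    calc (D : ℝ) * (9 * QQ s) * (2 ^ s * t) ≤ D * (9 * QQ s) * (t * t) := by gcongr
      _ = 9 * D * (t : ℝ) ^ 2 * QQ s := by ring
      _ ≤ 100 * ((D : ℝ) + 1) * (t : ℝ) ^ 2 * QQ s := by gcongr <;> linarith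
      _ ≤ 1 * R := by linarith

/-- uniqueness of the level at the time `t` -/
theorem Bg.unique (hb : Bg D C m t) {s s' : ℕ} (hs : s ≤ SL C m t) (hs' : s' ≤ SL C m t)
    {ξ : ℕ → ℝ} {a a' : ℕ → ℤ} {q q' : ℕ} (h1 : Fr D s (rh t) ξ a q)
    (h2 : Fr D s' (rh t) ξ a' q') : s = s' := by
  obtain ⟨f1, f2, f3, f4⟩ := hb.facts
  have hn : (1 : ℝ) ≤ ((C * t ^ m : ℕ) : ℝ) := by exact_mod_cast hb.n_pos
  have ht : (1 : ℝ) ≤ t := by exact_mod_cast hb.t_pos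
  have hD : (0 : ℝ) ≤ D := Nat.cast_nonneg _
  obtain ⟨-, h3⟩ := h1.unique h2 fun r _ => by
    have h4 := hb.pow_le hs
    have h5 := hb.pow_le hs'
    have hq : (q : ℝ) ≤ 2 ^ s := by exact_mod_cast h1.le
    have hq' : (q' : ℝ) ≤ 2 ^ s' := by exact_mod_cast h2.le
    have h6 := f4 r
    set R := √((2 ^ t : ℕ) : ℝ) with hR
    set n := ((C * t ^ m : ℕ) : ℝ) with hnn
    have hR0 : 0 < R := by linarith
    have hrh : 0 ≤ rh t r := by unfold rh; positivity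
    calc (rh t r + rh t r) * ((q : ℝ) * q') ≤ (1 / R + 1 / R) * ((2 * n) * (2 * n)) := by
          gcongr
          · linarith
          · linarith
      _ = 8 * n ^ 2 / R := by ring
      _ < 1 := by
        rw [div_lt_one hR0]
        refine lt_of_lt_of_le ?_ f3
        have ht2 : (1 : ℝ) ≤ (t : ℝ) ^ 2 := one_le_pow₀ ht
        have hn2 : (0 : ℝ) < n ^ 2 := by positivity
        calc 8 * n ^ 2 < 100 * 1 * n ^ 2 * 1 := by linarith
          _ ≤ 100 * ((D : ℝ) + 1) * n ^ 2 * (t : ℝ) ^ 2 := by gcongr; linarith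
  rw [← h1.2.1, ← h2.2.1, h3]

/-- **The decomposition.** -/
theorem Bg.err (hb : Bg D C m t)
    (hW : ∀ (N : ℕ) (u : ℝ) (ξ : ℕ → ℝ), 1 ≤ N → 1 ≤ u → 1 ≤ u * ‖w D N ξ‖ →
      ∃ q : ℕ, 1 ≤ q ∧ (q : ℝ) ≤ C * u ^ m ∧ ∃ b : ℕ → ℤ, ∀ r < D,
        |ξ r - b r / q| ≤ C * u ^ m / (N : ℝ) ^ (r + 1)) (ξ : ℕ → ℝ) :
    ‖w D (2 ^ t) ξ - ∑ s ∈ range (SL C m t + 1), tm D s t ξ‖ ≤ 1 / t := by
  classical
  obtain ⟨f1, f2, f3, f4⟩ := hb.facts
  have hn : (1 : ℝ) ≤ ((C * t ^ m : ℕ) : ℝ) := by exact_mod_cast hb.n_pos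
  have ht : (1 : ℝ) ≤ t := by exact_mod_cast hb.t_pos
  have ht0 : (0 : ℝ) < t := by linarith
  have hD : (0 : ℝ) ≤ D := Nat.cast_nonneg _
  by_cases hex : ∃ s ∈ range (SL C m t + 1), ∃ x : (ℕ → ℤ) × ℕ, Fr D s (rh t) ξ x.1 x.2
  · obtain ⟨s, hs, x, hx⟩ := hex
    have h1 : ∑ s ∈ range (SL C m t + 1), tm D s t ξ = w D (2 ^ t) ξ := by
      rw [sum_eq_single_of_mem s hs]
      · exact if_pos ⟨x, hx⟩
      · intro s' hs' hne
        refine if_neg ?_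
        rintro ⟨x', hx'⟩
        exact hne (hb.unique (Nat.lt_succ_iff.1 (mem_range.1 hs'))
          (Nat.lt_succ_iff.1 (mem_range.1 hs)) hx' hx)
    rw [h1, sub_self, norm_zero]
    positivity
  · have h1 : ∑ s ∈ range (SL C m t + 1), tm D s t ξ = 0 :=
      sum_eq_zero fun s hs => if_neg fun h => hex ⟨s, hs, h⟩
    rw [h1, sub_zero]
    by_contra hcon
    push Not at hcon
    apply hex
    rw [div_lt_iff₀' ht0] at hcon
    obtain ⟨q, hq, hq1, b, hbb⟩ := hW (2 ^ t) t ξ Nat.one_le_two_pow ht hcon.le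
    obtain ⟨a', q', g1, g2, g3, g4⟩ := reduce D q b hq
    refine ⟨Nat.clog 2 q', ?_, (a', q'), g1, rfl, g3, fun r hr => ?_⟩
    · rw [mem_range, Nat.lt_succ_iff]
      refine Nat.clog_mono_right 2 (g2.trans ?_)
      have : (q : ℝ) ≤ ((C * t ^ m : ℕ) : ℝ) := by
        push_cast
        exact hq1
      exact_mod_cast this
    · rw [← g4 r hr]
      refine (hbb r hr).trans ?_
      unfold rh
      have h2 : (C : ℝ) * (t : ℝ) ^ m ≤ √((2 ^ t : ℕ) : ℝ) := by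
        refine le_trans ?_ f3
        have e : (C : ℝ) * (t : ℝ) ^ m = ((C * t ^ m : ℕ) : ℝ) := by push_cast; ring
        rw [e]
        have ht2 : (1 : ℝ) ≤ (t : ℝ) ^ 2 := one_le_pow₀ ht
        set n := ((C * t ^ m : ℕ) : ℝ) with hnn
        have h3 : n ≤ n ^ 2 := le_self_pow₀ hn (by norm_num)
        calc n ≤ 1 * 1 * n ^ 2 * 1 := by linarith
          _ ≤ 100 * ((D : ℝ) + 1) * n ^ 2 * (t : ℝ) ^ 2 := by gcongr <;> linarith
      gcongr

end facts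

/-- The contribution of one level. -/
theorem level {D : ℕ} {K : ℝ} (hK : PC D K) {Cg κ : ℝ} (hCg : 0 ≤ Cg) (hκ : 1 / 2 ≤ κ)
    (hG : GB D Cg κ) {C m : ℕ} {t₀ : ℕ} (ht₀ : 1 ≤ t₀) (hbig : ∀ t ≥ t₀, Bg D C m t)
    (t₁ s : ℕ) {M : ℕ} [NeZero M] (B : ℕ → ℕ) (f : ZMod M → ℂ) :
    Dom (Icc t₀ t₁ : Set ℕ) (fun t x => if s ≤ SL C m t then
        ml (fun k => tm D s t (fun r => B r * th k)) f x else 0)
      (((3 * (2 * κ ^ s) + 3 * (Cg * κ ^ s * K) + 2 ^ D * (Cg * κ ^ s)) +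
        (2 * (2 * κ ^ s) + 2 * (Cg * κ ^ s * K) + Cg * κ ^ s * ((3 * s : ℕ) + 2))) * nrm f) := by
  classical
  have hκ0 : 0 < κ := by linarith
  have hnrm := nrm_nonneg f
  have hg0 : 0 ≤ Cg * κ ^ s := by positivity
  have hK0 := hK.1
  have hE : ∀ T : Finset ℕ, (∀ t ∈ T, t₀ ≤ t) →
      ∑ t ∈ T, (1 / (2 : ℝ) ^ s * (1 / t)) ^ 2 ≤ (2 * κ ^ s) ^ 2 := by
    intro T hT
    have h4 := sum_inv_sq ht₀ T hT
    have h5 : ∑ t ∈ T, (1 / (2 : ℝ) ^ s * (1 / t)) ^ 2 =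
        (1 / (2 : ℝ) ^ s) ^ 2 * ∑ t ∈ T, (1 / (t : ℝ)) ^ 2 := by
      rw [mul_sum]
      refine sum_congr rfl fun t _ => by ring
    rw [h5]
    have h6 : (1 / (2 : ℝ) ^ s) ≤ κ ^ s := by
      rw [← one_div_pow]
      gcongr
    have h7 : (2 : ℝ) / t₀ ≤ 2 ^ 2 := by
      have : (1 : ℝ) ≤ t₀ := by exact_mod_cast ht₀
      rw [div_le_iff₀ (by linarith)]
      linarith
    calc (1 / (2 : ℝ) ^ s) ^ 2 * ∑ t ∈ T, (1 / (t : ℝ)) ^ 2 ≤ (κ ^ s) ^ 2 * 2 ^ 2 := by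
          have := h4.trans h7
          gcongr
      _ = _ := by ring
  -- low levels
  set T : Finset ℕ := (Icc t₀ t₁).filter fun t => s ≤ SL C m t ∧ 8 ^ s ≤ t with hT
  have hTm : ∀ t ∈ T, t₀ ≤ t ∧ s ≤ SL C m t ∧ 8 ^ s ≤ t := by
    intro t ht
    rw [hT, mem_filter, mem_Icc] at ht
    exact ⟨ht.1.1, ht.2.1, ht.2.2⟩
  have h3 := dom_low (M := M) D hK hCg hκ0.le hG B f s T (fun t => 1 / 2 ^ s * (1 / t))
    (fun t ht => ((hbig t (hTm t ht).1).low (hTm t ht).2.2).1)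
    (fun t ht => (hbig t (hTm t ht).1).maj (hTm t ht).2.1)
    (fun t ht => ((hbig t (hTm t ht).1).low (hTm t ht).2.2).2.1)
    (fun t ht => ((hbig t (hTm t ht).1).low (hTm t ht).2.2).2.2.1)
    (fun t ht => ((hbig t (hTm t ht).1).low (hTm t ht).2.2).2.2.2)
    (E := 2 * κ ^ s) (by positivity) (hE T fun t ht => (hTm t ht).1)
  have h3' : Dom (Icc t₀ t₁ : Set ℕ) (fun t x => if s ≤ SL C m t ∧ 8 ^ s ≤ t then
      ml (fun k => tm D s t (fun r => B r * th k)) f x else 0)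
      ((3 * (2 * κ ^ s) + 3 * (Cg * κ ^ s * K) + 2 ^ D * (Cg * κ ^ s)) * nrm f) := by
    refine h3.extend (fun t ht hT' x => ?_) (fun t ht hT' x => ?_)
    · rw [if_pos (hTm t hT').2]
    · rw [if_neg]
      intro hc
      apply hT'
      rw [hT]
      exact mem_coe.2 (mem_filter.2 ⟨mem_coe.1 ht, hc⟩)
  -- high levels
  set T2 : Finset ℕ := (Icc t₀ t₁).filter fun t => s ≤ SL C m t ∧ ¬ 8 ^ s ≤ t with hT2
  have hTm2 : ∀ t ∈ T2, t₀ ≤ t ∧ s ≤ SL C m t ∧ ¬ 8 ^ s ≤ t := by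
    intro t ht
    rw [hT2, mem_filter, mem_Icc] at ht
    exact ⟨ht.1.1, ht.2.1, ht.2.2⟩
  have h4 := dom_high (M := M) D hK hCg hκ0.le hG (fun k r => B r * th k) f s (3 * s) T2
    (fun t ht => by
      have h4 := (hTm2 t ht).2.2
      rw [pow_mul]
      norm_num
      omega) (fun t => 1 / 2 ^ s * (1 / t)) (fun t => by positivity)
    (fun t ht => (hbig t (hTm2 t ht).1).rad (hTm2 t ht).2.1)
    (fun t ht => (hbig t (hTm2 t ht).1).maj (hTm2 t ht).2.1)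
    (E := 2 * κ ^ s) (by positivity) (hE T2 fun t ht => (hTm2 t ht).1)
  have h4' : Dom (Icc t₀ t₁ : Set ℕ) (fun t x => if s ≤ SL C m t ∧ ¬ 8 ^ s ≤ t then
      ml (fun k => tm D s t (fun r => B r * th k)) f x else 0)
      ((2 * (2 * κ ^ s) + 2 * (Cg * κ ^ s * K) + Cg * κ ^ s * ((3 * s : ℕ) + 2)) * nrm f) := by
    refine h4.extend (fun t ht hT' x => ?_) (fun t ht hT' x => ?_)
    · rw [if_pos (hTm2 t hT').2]
    · rw [if_neg]
      intro hc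
      apply hT'
      rw [hT2]
      exact mem_coe.2 (mem_filter.2 ⟨mem_coe.1 ht, hc⟩)
  have h8 := h3'.add h4' (by positivity) (by positivity)
  rw [← add_mul] at h8
  refine h8.congr fun t _ x => ?_
  by_cases hs : s ≤ SL C m t
  · by_cases h9 : 8 ^ s ≤ t
    · simp [hs, h9]
    · simp [hs, h9]
  · simp [hs]

/-- **The maximal inequality along the moment curve.** -/
theorem curve_max (D : ℕ) : ∃ A : ℝ, 0 ≤ A ∧ ∀ (M : ℕ) [NeZero M] (B : ℕ → ℕ)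
    (f : ZMod M → ℂ) (t₁ : ℕ), Dom {t : ℕ | t ≤ t₁}
      (fun t => ml (fun k => w D (2 ^ t) (fun r => B r * th k)) f) (A * nrm f) := by
  classical
  obtain ⟨K, hK⟩ := exists_PC D
  obtain ⟨Cg, κ, hCg, hκ, hκ1, hG⟩ := gauss_level D
  obtain ⟨C, m, hC, hm, hW⟩ := weyl D
  obtain ⟨t₀, ht₀, hB⟩ := exists_Bg D hC m
  have hκ0 : 0 < κ := by linarith
  have hK0 := hK.1
  set c : ℕ → ℝ := fun s => (3 * (2 * κ ^ s) + 3 * (Cg * κ ^ s * K) + 2 ^ D * (Cg * κ ^ s)) +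
        (2 * (2 * κ ^ s) + 2 * (Cg * κ ^ s * K) + Cg * κ ^ s * ((3 * s : ℕ) + 2)) with hc
  have hc0 : ∀ s, 0 ≤ c s := fun s => by rw [hc]; positivity
  have hsum : Summable c := by
    have h1 : Summable fun s : ℕ => κ ^ s := summable_geometric_of_lt_one hκ0.le hκ1
    have h2 : Summable fun s : ℕ => (s : ℝ) ^ 1 * κ ^ s :=
      summable_pow_mul_geometric_of_norm_lt_one 1 (by
        rw [Real.norm_eq_abs, abs_of_pos hκ0]
        exact hκ1)
    have h3 := (h1.mul_left (6 + 3 * Cg * K + 2 ^ D * Cg + 4 + 2 * Cg * K + 2 * Cg)).add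
      (h2.mul_left (3 * Cg))
    refine h3.congr fun s => ?_
    rw [hc]
    push_cast
    ring
  have hS0 : 0 ≤ ∑' s, c s := tsum_nonneg hc0
  refine ⟨t₀ + (2 + ∑' s, c s), by positivity, fun M _ B f t₁ => ?_⟩
  have hnrm := nrm_nonneg f
  -- small times
  have h1 : Dom (range t₀ : Set ℕ) (fun t => ml (fun k => w D (2 ^ t) (fun r => B r * th k)) f)
      (t₀ * nrm f) := by
    refine dom_sq (range t₀) (fun t (k : ZMod M) => w D (2 ^ t) (fun r => B r * th k)) f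
      fun k => ?_
    have h2 : ∀ t ∈ range t₀, ‖w D (2 ^ t) (fun r => B r * th k)‖ ^ 2 ≤ 1 := fun t _ =>
      pow_le_one₀ (norm_nonneg _) (w_norm_le _ _ _)
    refine (sum_le_sum h2).trans ?_
    rw [sum_const, card_range, nsmul_eq_mul, mul_one]
    have : (1 : ℝ) ≤ t₀ := by exact_mod_cast ht₀
    nlinarith
  -- large times
  have herr : Dom (Icc t₀ t₁ : Set ℕ) (fun t => ml (fun k => w D (2 ^ t) (fun r => B r * th k) -
      ∑ s ∈ range (SL C m t + 1), tm D s t (fun r => B r * th k)) f) (2 * nrm f) := by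
    have h1 := dom_sq (Icc t₀ t₁) (fun t (k : ZMod M) => w D (2 ^ t) (fun r => B r * th k) -
      ∑ s ∈ range (SL C m t + 1), tm D s t (fun r => B r * th k)) f (C := 2) (fun k => by
        have h2 : ∀ t ∈ Icc t₀ t₁, ‖w D (2 ^ t) (fun r => B r * th k) -
            ∑ s ∈ range (SL C m t + 1), tm D s t (fun r => B r * th k)‖ ^ 2 ≤
            (1 / (t : ℝ)) ^ 2 := by
          intro t ht
          have h3 := (hB t (mem_Icc.1 ht).1).err hW (fun r => B r * th k)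
          gcongr
        refine (sum_le_sum h2).trans ?_
        have h4 := sum_inv_sq ht₀ (Icc t₀ t₁) fun t ht => (mem_Icc.1 ht).1
        have h5 : (2 : ℝ) / t₀ ≤ 2 ^ 2 := by
          have : (1 : ℝ) ≤ t₀ := by exact_mod_cast ht₀
          rw [div_le_iff₀ (by linarith)]
          linarith
        linarith)
    exact h1
  have hlev : Dom (Icc t₀ t₁ : Set ℕ) (fun t x => ∑ s ∈ range (SL C m t₁ + 1),
      if s ≤ SL C m t then ml (fun k => tm D s t (fun r => B r * th k)) f x else 0)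
      ((∑' s, c s) * nrm f) := by
    have h1 := Dom.sum (X := ZMod M) (S := (Icc t₀ t₁ : Set ℕ)) (range (SL C m t₁ + 1))
      (fun s t x => if s ≤ SL C m t then ml (fun k => tm D s t (fun r => B r * th k)) f x else 0)
      (fun s => c s * nrm f) (fun s _ => level hK (by linarith) hκ hG ht₀ hB t₁ s B f)
      (fun s _ => mul_nonneg (hc0 s) hnrm)
    refine h1.mono (sum_nonneg fun s _ => mul_nonneg (hc0 s) hnrm) ?_
    rw [← sum_mul]
    exact mul_le_mul_of_nonneg_right (hsum.sum_le_tsum _ fun s _ => hc0 s) hnrm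
  have htot := herr.add hlev (by positivity) (by positivity)
  have hbigt : Dom (Icc t₀ t₁ : Set ℕ) (fun t => ml (fun k => w D (2 ^ t)
      (fun r => B r * th k)) f) ((2 + ∑' s, c s) * nrm f) := by
    rw [add_mul]
    refine htot.congr fun t ht x => ?_
    have ht' : t₀ ≤ t ∧ t ≤ t₁ := mem_Icc.1 (mem_coe.1 ht)
    have hSLmono : SL C m t ≤ SL C m t₁ := by
      unfold SL
      exact Nat.clog_mono_right 2 (Nat.mul_le_mul_left _ (Nat.pow_le_pow_left ht'.2 _))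
    have hsum2 : ∑ s ∈ range (SL C m t₁ + 1), (if s ≤ SL C m t then
        ml (fun k => tm D s t (fun r => B r * th k)) f x else 0) =
        ml (fun k => ∑ s ∈ range (SL C m t + 1), tm D s t (fun r => B r * th k)) f x := by
      rw [ml_sum, ← sum_filter]
      refine sum_congr ?_ fun _ _ => rfl
      ext s
      rw [mem_filter, mem_range, mem_range]
      omega
    rw [hsum2, ← ml_add]
    congr 1
    funext k
    ring
  -- together
  have g1 : Dom {t : ℕ | t ≤ t₁} (fun t x => if t < t₀ then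
      ml (fun k => w D (2 ^ t) (fun r => B r * th k)) f x else 0) (t₀ * nrm f) := by
    refine h1.extend (fun t _ ht x => ?_) (fun t _ ht x => ?_)
    · rw [if_pos (by simpa using ht)]
    · rw [if_neg (by simpa using ht)]
  have g2 : Dom {t : ℕ | t ≤ t₁} (fun t x => if t < t₀ then 0 else
      ml (fun k => w D (2 ^ t) (fun r => B r * th k)) f x) ((2 + ∑' s, c s) * nrm f) := by
    refine hbigt.extend (fun t _ ht x => ?_) (fun t ht1 ht x => ?_)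
    · rw [if_neg (by have := (mem_Icc.1 (mem_coe.1 ht)).1; omega)]
    · rw [if_pos]
      by_contra hcon
      have ht2 : t ≤ t₁ := ht1
      exact ht (mem_coe.2 (mem_Icc.2 ⟨by omega, ht2⟩))
  have g3 := g1.add g2 (by positivity) (by positivity)
  rw [← add_mul] at g3
  refine g3.congr fun t _ x => ?_
  by_cases h : t < t₀ <;> simp [h]

/-- the averages along the moment curve -/
theorem ml_w {M : ℕ} [NeZero M] (D N : ℕ) (B : ℕ → ℕ) (f : ZMod M → ℂ) (x : ZMod M) :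
    ml (fun k => w D N (fun r => B r * th k)) f x =
      (N : ℂ)⁻¹ * ∑ n ∈ range N, f (x + ((∑ r ∈ range D, n ^ (r + 1) * B r : ℕ) : ZMod M)) := by
  simp only [ml_shift f]
  rw [← ml_sum, ← ml_smul]
  congr 1
  funext k
  unfold w
  congr 1
  refine sum_congr rfl fun n _ => ?_
  congr 1
  unfold ph
  push_cast
  rw [sum_mul]
  exact sum_congr rfl fun r _ => by ring

end Pool.Agent.Zk89.MT
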