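import Pool.Agent.Zk89.MT.Fc

/-!
# Square sums, box kernels and the maximal inequality for boxes
-/

set_option autoImplicit false
set_option linter.unusedSectionVars false

open Finset Filter Topology

noncomputable section

namespace Pool.Agent.Zk89.MT

open Pool.Agent.Zk89.BT (DK DK_norm_le DK_near DK_far' ml ml_DK ml_bound nrm nrm_nonneg Dom
  maximal addRight_pow th)

/-- geometric sums over injective exponents -/
theorem geo {ρ : ℝ} (h0 : 0 ≤ ρ) (h1 : ρ < 1) (S : Finset ℕ) (e : ℕ → ℕ)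
    (he : Set.InjOn e (S : Set ℕ)) : ∑ t ∈ S, ρ ^ e t ≤ 1 / (1 - ρ) := by
  rw [← sum_image (s := S) (g := e) (f := fun i => ρ ^ i) he]
  refine ((summable_geometric_of_lt_one h0 h1).sum_le_tsum _ (fun _ _ => by positivity)).trans ?_
  rw [tsum_geometric_of_lt_one h0 h1, one_div]

theorem grow {y : ℕ → ℝ} (h : ∀ t, 2 * y t ≤ y (t + 1)) (t i : ℕ) : 2 ^ i * y t ≤ y (t + i) := by
  induction i with
  | zero => simp
  | succ i ih =>
    have := h (t + i)
    rw [pow_succ', show t + (i + 1) = t + i + 1 by ring]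
    linarith

/-- **Square sums of profiles.** -/
theorem sq_sum {C0 C1 : ℝ} (hC0 : 0 ≤ C0) (hC1 : 0 ≤ C1) {m : ℕ} (hm : 1 ≤ m) :
    ∃ K : ℝ, 0 ≤ K ∧ ∀ (y b : ℕ → ℝ) (T : Finset ℕ), (∀ t, 0 ≤ y t) →
      (∀ t, 2 * y t ≤ y (t + 1)) →
      (∀ t ∈ T, 0 ≤ b t ∧ b t ≤ C0 * y t ∧ y t * b t ^ m ≤ C1) → ∑ t ∈ T, b t ^ 2 ≤ K ^ 2 := by
  have hm0 : (0 : ℝ) < m := by exact_mod_cast hm
  set κ : ℝ := (1 / 2 : ℝ) ^ ((m : ℝ)⁻¹) with hκ
  have hκ0 : 0 < κ := by rw [hκ]; positivity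
  have hκm : κ ^ m = 1 / 2 := by
    rw [hκ, ← Real.rpow_natCast, ← Real.rpow_mul (by norm_num), inv_mul_cancel₀ hm0.ne',
      Real.rpow_one]
  have hκ1 : κ < 1 := by
    rw [hκ]
    exact Real.rpow_lt_one (by norm_num) (by norm_num) (by positivity)
  have hκ2 : κ ^ 2 < 1 := by nlinarith
  refine ⟨√(C0 ^ 2 * (1 / (1 - 1 / 4)) + (1 + C1) ^ 2 * (1 / (1 - κ ^ 2))), Real.sqrt_nonneg _,
    fun y b T hy0 hy hb => ?_⟩
  have hpos : 0 < 1 - κ ^ 2 := by linarith
  rw [Real.sq_sqrt (by positivity)]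
  rw [← sum_filter_add_sum_filter_not T (fun t => y t ≤ 1)]
  refine add_le_add ?_ ?_
  · rcases (T.filter fun t => y t ≤ 1).eq_empty_or_nonempty with h0 | h0
    · rw [h0, sum_empty]
      positivity
    · set tm := (T.filter fun t => y t ≤ 1).max' h0 with htm
      have htm1 : y tm ≤ 1 := (mem_filter.1 (max'_mem _ h0)).2
      have h1 : ∀ t ∈ T.filter (fun t => y t ≤ 1), b t ^ 2 ≤ C0 ^ 2 * (1 / 4) ^ (tm - t) := by
        intro t ht
        have hle : t ≤ tm := le_max' _ t ht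
        obtain ⟨hb0, hb1, -⟩ := hb t (mem_filter.1 ht).1
        have h2 := grow hy t (tm - t)
        rw [Nat.add_sub_cancel' hle] at h2
        have h3 : y t ≤ (1 / 2) ^ (tm - t) := by
          have h5 : (0 : ℝ) < 2 ^ (tm - t) := by positivity
          rw [one_div, inv_pow, ← one_div, le_div_iff₀ h5]
          linarith
        have h4 : b t ≤ C0 * (1 / 2) ^ (tm - t) := hb1.trans (by gcongr)
        calc b t ^ 2 ≤ (C0 * (1 / 2) ^ (tm - t)) ^ 2 := by gcongr
          _ = C0 ^ 2 * (1 / 4) ^ (tm - t) := by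
            rw [mul_pow, ← pow_mul, mul_comm (tm - t) 2, pow_mul]
            norm_num
      refine (sum_le_sum h1).trans ?_
      rw [← mul_sum]
      refine mul_le_mul_of_nonneg_left (geo (by norm_num) (by norm_num) _ _ ?_) (by positivity)
      intro t ht t' ht' he
      have h2 : t ≤ tm := le_max' _ t (by exact_mod_cast ht)
      have h3 : t' ≤ tm := le_max' _ t' (by exact_mod_cast ht')
      have he' : tm - t = tm - t' := he
      omega
  · rcases (T.filter fun t => ¬ y t ≤ 1).eq_empty_or_nonempty with h0 | h0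
    · rw [h0, sum_empty]
      positivity
    · set tp := (T.filter fun t => ¬ y t ≤ 1).min' h0 with htp
      have htp1 : 1 < y tp := not_le.1 (mem_filter.1 (min'_mem _ h0)).2
      have h1 : ∀ t ∈ T.filter (fun t => ¬ y t ≤ 1), b t ^ 2 ≤
          (1 + C1) ^ 2 * (κ ^ 2) ^ (t - tp) := by
        intro t ht
        have hle : tp ≤ t := min'_le _ t ht
        obtain ⟨hb0, -, hb1⟩ := hb t (mem_filter.1 ht).1
        have h2 := grow hy tp (t - tp)
        rw [Nat.add_sub_cancel' hle] at h2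
        have h2' : (2 : ℝ) ^ (t - tp) ≤ y t := by
          have : (0 : ℝ) < 2 ^ (t - tp) := by positivity
          nlinarith
        have h3 : b t ^ m ≤ ((1 + C1) * κ ^ (t - tp)) ^ m := by
          have e1 : ((1 + C1) * κ ^ (t - tp)) ^ m = (1 + C1) ^ m * (1 / 2) ^ (t - tp) := by
            rw [mul_pow, ← pow_mul, mul_comm (t - tp) m, pow_mul, hκm]
          rw [e1]
          have h5 : 1 + C1 ≤ (1 + C1) ^ m := le_self_pow₀ (by linarith) (by omega)
          have h6 : (2 : ℝ) ^ (t - tp) * b t ^ m ≤ C1 := by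
            refine le_trans ?_ hb1
            have : 0 ≤ b t ^ m := by positivity
            gcongr
          have h7 : b t ^ m ≤ C1 * (1 / 2) ^ (t - tp) := by
            rw [one_div, inv_pow, ← div_eq_mul_inv, le_div_iff₀ (by positivity), mul_comm]
            exact h6
          refine h7.trans ?_
          have : C1 ≤ (1 + C1) ^ m := by linarith
          gcongr
        have h4 : b t ≤ (1 + C1) * κ ^ (t - tp) :=
          le_of_pow_le_pow_left₀ (by omega) (by positivity) h3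
        calc b t ^ 2 ≤ ((1 + C1) * κ ^ (t - tp)) ^ 2 := by gcongr
          _ = (1 + C1) ^ 2 * (κ ^ 2) ^ (t - tp) := by
            rw [mul_pow, ← pow_mul, mul_comm (t - tp) 2, pow_mul]
      refine (sum_le_sum h1).trans ?_
      rw [← mul_sum]
      refine mul_le_mul_of_nonneg_left (geo (by positivity) hκ2 _ _ ?_) (by positivity)
      intro t ht t' ht' he
      have h2 : tp ≤ t := min'_le _ t (by exact_mod_cast ht)
      have h3 : tp ≤ t' := min'_le _ t' (by exact_mod_cast ht')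
      have he' : t - tp = t' - tp := he
      omega

/-- the box kernel -/
def bk (D : ℕ) (X : ℕ → ℕ) (β : ℕ → ℝ) : ℂ := ∏ r ∈ range D, DK (X r) (β r)

theorem prod_norm_le (D : ℕ) (x : ℕ → ℂ) (hx : ∀ r < D, ‖x r‖ ≤ 1) :
    ‖∏ r ∈ range D, x r‖ ≤ 1 := by
  rw [norm_prod]
  exact prod_le_one (fun _ _ => norm_nonneg _) fun r hr => hx r (mem_range.1 hr)

theorem prod_diff (D : ℕ) (x y : ℕ → ℂ) (hx : ∀ r < D, ‖x r‖ ≤ 1) (hy : ∀ r < D, ‖y r‖ ≤ 1) :
    ‖∏ r ∈ range D, x r - ∏ r ∈ range D, y r‖ ≤ ∑ r ∈ range D, ‖x r - y r‖ := by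
  induction D with
  | zero => simp
  | succ D ih =>
    rw [prod_range_succ, prod_range_succ, sum_range_succ]
    have e : (∏ r ∈ range D, x r) * x D - (∏ r ∈ range D, y r) * y D =
        (∏ r ∈ range D, x r - ∏ r ∈ range D, y r) * x D + (∏ r ∈ range D, y r) * (x D - y D) := by
      ring
    rw [e]
    refine (norm_add_le _ _).trans ?_
    rw [norm_mul, norm_mul]
    have h1 := ih (fun r hr => hx r (by omega)) (fun r hr => hy r (by omega))
    have h2 := prod_norm_le D y fun r hr => hy r (by omega)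
    have h3 := hx D (by omega)
    refine add_le_add ?_ ?_
    · calc ‖∏ r ∈ range D, x r - ∏ r ∈ range D, y r‖ * ‖x D‖ ≤
          ‖∏ r ∈ range D, x r - ∏ r ∈ range D, y r‖ * 1 := by gcongr
        _ ≤ _ := by rw [mul_one]; exact h1
    · calc ‖∏ r ∈ range D, y r‖ * ‖x D - y D‖ ≤ 1 * ‖x D - y D‖ := by gcongr
        _ = _ := one_mul _

theorem bk_norm_le (D : ℕ) (X : ℕ → ℕ) (β : ℕ → ℝ) : ‖bk D X β‖ ≤ 1 :=
  prod_norm_le D _ fun _ _ => DK_norm_le _ _

theorem bk_near (D : ℕ) {N : ℕ} (hN : 1 ≤ N) (β : ℕ → ℝ) :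
    ‖bk D (fun r => N ^ (r + 1)) β - 1‖ ≤ 2 * Real.pi * XX D N β := by
  have h1 := prod_diff D (fun r => DK (N ^ (r + 1)) (β r)) (fun _ => 1)
    (fun _ _ => DK_norm_le _ _) (fun _ _ => by simp)
  rw [prod_const_one] at h1
  refine h1.trans ?_
  unfold XX
  rw [mul_sum]
  refine sum_le_sum fun r _ => ?_
  have h2 := DK_near (X := N ^ (r + 1)) (by positivity) (β r)
  push_cast at h2
  exact h2

theorem bk_far (D : ℕ) {N : ℕ} (hN : 1 ≤ N) (β : ℕ → ℝ) (hβ : ∀ r < D, |β r| ≤ 1 / 2) :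
    XX D N β * ‖bk D (fun r => N ^ (r + 1)) β‖ ≤ D := by
  unfold XX
  rw [sum_mul]
  have h1 : ∀ r ∈ range D, (N : ℝ) ^ (r + 1) * |β r| * ‖bk D (fun r => N ^ (r + 1)) β‖ ≤ 1 := by
    intro r hr
    have hN0 : (0 : ℝ) < N := by exact_mod_cast hN
    by_cases h0 : β r = 0
    · rw [h0, abs_zero, mul_zero, zero_mul]
      exact zero_le_one
    · have h2 := DK_far' (X := N ^ (r + 1)) (by positivity) h0 (hβ r (mem_range.1 hr))
      have h3 : ‖bk D (fun r => N ^ (r + 1)) β‖ ≤ ‖DK (N ^ (r + 1)) (β r)‖ := by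
        unfold bk
        rw [← mul_prod_erase _ _ hr, norm_mul]
        refine mul_le_of_le_one_right (norm_nonneg _) ?_
        rw [norm_prod]
        exact prod_le_one (fun _ _ => norm_nonneg _) fun _ _ => DK_norm_le _ _
      have h4 : 0 < (N : ℝ) ^ (r + 1) * |β r| := by
        have := abs_pos.2 h0
        positivity
      have h5 := h3.trans h2
      push_cast at h5
      rw [le_div_iff₀ h4] at h5
      linarith
  refine (sum_le_sum h1).trans ?_
  simp

theorem add_pow_le' {x y : ℝ} (hx : 0 ≤ x) (hy : 0 ≤ y) (m : ℕ) :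
    (x + y) ^ m ≤ 2 ^ m * (x ^ m + y ^ m) := by
  have h1 : x + y ≤ 2 * max x y := by
    have := le_max_left x y
    have := le_max_right x y
    linarith
  have h2 : (max x y) ^ m ≤ x ^ m + y ^ m := by
    rcases le_total x y with h | h
    · rw [max_eq_right h]
      have : 0 ≤ x ^ m := by positivity
      linarith
    · rw [max_eq_left h]
      have : 0 ≤ y ^ m := by positivity
      linarith
  calc (x + y) ^ m ≤ (2 * max x y) ^ m := by gcongr
    _ = 2 ^ m * (max x y) ^ m := mul_pow _ _ _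
    _ ≤ 2 ^ m * (x ^ m + y ^ m) := by gcongr

/-- **Profiles**: the constants depend only on `D`. -/
theorem profiles (D : ℕ) : ∃ (C0 C1 : ℝ) (m : ℕ), 0 ≤ C0 ∧ 0 ≤ C1 ∧ 1 ≤ m ∧
    ∀ (N : ℕ) (β : ℕ → ℝ), 1 ≤ N → (∀ r < D, |β r| ≤ √N / (N : ℝ) ^ (r + 1)) →
      ((∀ r < D, |β r| ≤ 1 / 2) →
        ‖w D N β - bk D (fun r => N ^ (r + 1)) β‖ ≤ C0 * XX D N β ∧
        XX D N β * ‖w D N β - bk D (fun r => N ^ (r + 1)) β‖ ^ m ≤ C1) ∧
      (∀ z : ℂ, ((∀ r < D, (N : ℝ) ^ (r + 1) * |β r| ≤ 1) → z = 1) →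
        (¬ (∀ r < D, (N : ℝ) ^ (r + 1) * |β r| ≤ 1) → z = 0) →
        ‖w D N β - z‖ ≤ C0 * XX D N β ∧ XX D N β * ‖w D N β - z‖ ^ m ≤ C1) := by
  obtain ⟨C, m, hC, hm, hW⟩ := weyl D
  refine ⟨4 * Real.pi, 2 ^ m * (2 * D * C + D), m, by positivity, by positivity, hm,
    fun N β hN hβ => ?_⟩
  have hX := XX_nonneg D N β
  have hfar := w_far D hC hm hW hN β hβ
  have hnear := w_near D hN β
  have hpi := Real.pi_pos
  have hpi3 := Real.pi_gt_three
  have hC1 : (1 : ℝ) ≤ C := by exact_mod_cast hC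
  have hD : (0 : ℝ) ≤ D := Nat.cast_nonneg _
  have h2m : (1 : ℝ) ≤ 2 ^ m := one_le_pow₀ (by norm_num)
  refine ⟨fun hh => ⟨?_, ?_⟩, fun z hz1 hz0 => ?_⟩
  · have h1 := bk_near D hN β
    have e : w D N β - bk D (fun r => N ^ (r + 1)) β =
        (w D N β - 1) - (bk D (fun r => N ^ (r + 1)) β - 1) := by ring
    rw [e]
    refine (norm_sub_le _ _).trans ?_
    linarith
  · have h1 := bk_far D hN β hh
    have h2 := bk_norm_le D (fun r => N ^ (r + 1)) β
    have h3 : ‖bk D (fun r => N ^ (r + 1)) β‖ ^ m ≤ ‖bk D (fun r => N ^ (r + 1)) β‖ :=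
      pow_le_of_le_one (norm_nonneg _) h2 (by omega)
    calc XX D N β * ‖w D N β - bk D (fun r => N ^ (r + 1)) β‖ ^ m ≤
        XX D N β * (‖w D N β‖ + ‖bk D (fun r => N ^ (r + 1)) β‖) ^ m := by
          have := norm_sub_le (w D N β) (bk D (fun r => N ^ (r + 1)) β)
          gcongr
      _ ≤ XX D N β * (2 ^ m * (‖w D N β‖ ^ m + ‖bk D (fun r => N ^ (r + 1)) β‖ ^ m)) := by
          have := add_pow_le' (norm_nonneg (w D N β))
            (norm_nonneg (bk D (fun r => N ^ (r + 1)) β)) m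
          gcongr
      _ = 2 ^ m * (XX D N β * ‖w D N β‖ ^ m +
            XX D N β * ‖bk D (fun r => N ^ (r + 1)) β‖ ^ m) := by ring
      _ ≤ 2 ^ m * (2 * D * C + XX D N β * ‖bk D (fun r => N ^ (r + 1)) β‖) := by gcongr
      _ ≤ 2 ^ m * (2 * D * C + D) := by gcongr
  · by_cases hc : ∀ r < D, (N : ℝ) ^ (r + 1) * |β r| ≤ 1
    · rw [hz1 hc]
      refine ⟨hnear.trans ?_, ?_⟩
      · nlinarith
      · have h1 : XX D N β ≤ D := by
          unfold XX
          refine (sum_le_sum fun r hr => hc r (mem_range.1 hr)).trans ?_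
          simp
        have h2 : ‖w D N β - 1‖ ≤ 2 := by
          refine (norm_sub_le _ _).trans ?_
          have := w_norm_le D N β
          rw [norm_one]
          linarith
        calc XX D N β * ‖w D N β - 1‖ ^ m ≤ D * 2 ^ m := by gcongr
          _ ≤ 2 ^ m * (2 * D * C + D) := by nlinarith [mul_nonneg hD (by linarith : (0:ℝ) ≤ C)]
    · rw [hz0 hc, sub_zero]
      push Not at hc
      obtain ⟨r, hr, hr1⟩ := hc
      have h1 : 1 < XX D N β := by
        unfold XX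
        refine lt_of_lt_of_le hr1 (single_le_sum (f := fun r => (N : ℝ) ^ (r + 1) * |β r|)
          (fun _ _ => by positivity) (mem_range.2 hr))
      have h2 := w_norm_le D N β
      refine ⟨?_, hfar.trans ?_⟩
      · nlinarith
      · nlinarith [mul_nonneg hD (by linarith : (0:ℝ) ≤ C)]

section box

variable {M : ℕ} [NeZero M]

/-- iterated averages -/
def Av (L : ℕ → ℕ) (c : ℕ → ZMod M) : ℕ → (ZMod M → ℂ) → ZMod M → ℂ
  | 0, F, x => F x
  | D + 1, F, x => (L D : ℂ)⁻¹ * ∑ j ∈ range (L D), Av L c D F (x + j * c D)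

theorem ml_bk (g f : ZMod M → ℂ) (L B : ℕ → ℕ) (Q : ℕ) : ∀ (D : ℕ) (x : ZMod M),
    ml (fun k => g k * bk D L (fun r => Q * (B r * th k))) f x =
      Av L (fun r => ((Q * B r : ℕ) : ZMod M)) D (ml g f) x := by
  intro D
  induction D with
  | zero =>
    intro x
    simp [bk, Av]
  | succ D ih =>
    intro x
    have h1 := ml_DK (fun k => g k * bk D L (fun r => Q * (B r * th k))) f (L D) (Q * B D) x
    have e : (fun k => g k * bk (D + 1) L (fun r => Q * (B r * th k))) =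
        fun k : ZMod M => g k * bk D L (fun r => Q * (B r * th k)) *
          DK (L D) (((Q * B D : ℕ) : ℝ) * th k) := by
      funext k
      unfold bk
      rw [prod_range_succ, ← mul_assoc]
      congr 2
      push_cast
      ring
    rw [e, h1]
    show _ = (L D : ℂ)⁻¹ * ∑ j ∈ range (L D), _
    congr 1
    refine sum_congr rfl fun j _ => ?_
    rw [ih]
    congr 1
    push_cast
    ring

theorem box_max (c : ℕ → ZMod M) (F : ZMod M → ℂ) (L : ℕ → ℕ → ℕ) (S : Finset ℕ) : ∀ D : ℕ,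
    ∃ h : ZMod M → ℝ, (∀ x, 0 ≤ h x) ∧ (∀ t ∈ S, ∀ x, ‖Av (L t) c D F x‖ ≤ h x) ∧
      ∑ x, h x ^ 2 ≤ 4 ^ D * ∑ x, ‖F x‖ ^ 2 := by
  intro D
  induction D with
  | zero => exact ⟨fun x => ‖F x‖, fun x => norm_nonneg _, fun t _ x => le_rfl, by simp⟩
  | succ D ih =>
    obtain ⟨h, h1, h2, h3⟩ := ih
    obtain ⟨h', h4, h5, h6⟩ := maximal (Equiv.addRight (c D)) h h1 (S.image fun t => L t D)
    refine ⟨h', h4, fun t ht x => ?_, ?_⟩
    · refine le_trans ?_ (h5 x (L t D) (mem_image_of_mem _ ht))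
      show ‖(L t D : ℂ)⁻¹ * ∑ j ∈ range (L t D), Av (L t) c D F (x + j * c D)‖ ≤ _
      rw [norm_mul, norm_inv, Complex.norm_natCast]
      refine mul_le_mul_of_nonneg_left ?_ (by positivity)
      refine (norm_sum_le _ _).trans (sum_le_sum fun j _ => ?_)
      rw [addRight_pow]
      exact h2 t ht _
    · refine h6.trans ?_
      rw [pow_succ]
      linarith

/-- **Maximal inequality for boxes.** -/
theorem dom_box (g f : ZMod M → ℂ) {C : ℝ} (hC : 0 ≤ C) (hg : ∀ k, ‖g k‖ ≤ C) (Q : ℕ)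
    (B : ℕ → ℕ) (L : ℕ → ℕ → ℕ) (S : Finset ℕ) (D : ℕ) :
    Dom (S : Set ℕ) (fun t => ml (fun k => g k * bk D (L t) (fun r => Q * (B r * th k))) f)
      (2 ^ D * (C * nrm f)) := by
  obtain ⟨h, h1, h2, h3⟩ := box_max (fun r => ((Q * B r : ℕ) : ZMod M)) (ml g f) L S D
  refine ⟨h, h1, fun t ht x => ?_, ?_⟩
  · show ‖ml (fun k => g k * bk D (L t) (fun r => Q * (B r * th k))) f x‖ ≤ _
    rw [ml_bk]
    exact h2 t ht x
  · refine h3.trans ?_
    have h5 := ml_bound g f hC hg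
    calc 4 ^ D * ∑ x, ‖ml g f x‖ ^ 2 ≤ 4 ^ D * (C * nrm f) ^ 2 := by gcongr
      _ = (2 ^ D * (C * nrm f)) ^ 2 := by
        rw [mul_pow (2 ^ D), ← pow_mul, mul_comm D 2, pow_mul]
        norm_num

end box

end Pool.Agent.Zk89.MT
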