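import Pool.Agent.Zk89.MT.Mx

/-!
# Transference
-/

set_option autoImplicit false
set_option linter.unusedSectionVars false

open Finset Filter Topology MeasureTheory

noncomputable section

namespace Pool.Agent.Zk89.MT

open Pool.Agent.Zk89.BT (ml nrm nrm_nonneg nrm_sq Dom th)

/-- digits -/
def dg (M x r : ℕ) : ℕ := x / M ^ r % M

theorem sum_lt {M : ℕ} : ∀ (D : ℕ) (z : ℕ → ℕ), (∀ r < D, z r < M) →
    ∑ r ∈ range D, z r * M ^ r < M ^ D := by
  intro D
  induction D with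
  | zero => intro z _; simp
  | succ D ih =>
    intro z hz
    rw [sum_range_succ]
    have h1 := ih z fun r hr => hz r (by omega)
    have h2 : z D + 1 ≤ M := hz D (by omega)
    calc ∑ r ∈ range D, z r * M ^ r + z D * M ^ D < M ^ D + z D * M ^ D := by omega
      _ = (z D + 1) * M ^ D := by ring
      _ ≤ M * M ^ D := Nat.mul_le_mul_right _ h2
      _ = M ^ (D + 1) := by rw [pow_succ']

theorem dg_sum {M : ℕ} (hM : 0 < M) : ∀ (D : ℕ) (z : ℕ → ℕ), (∀ r < D, z r < M) → ∀ r < D,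
    dg M (∑ i ∈ range D, z i * M ^ i) r = z r := by
  intro D
  induction D with
  | zero => intro z _ r hr; omega
  | succ D ih =>
    intro z hz r hr
    rw [sum_range_succ]
    have h1 := sum_lt D z fun r hr => hz r (by omega)
    rcases Nat.lt_succ_iff_lt_or_eq.1 hr with h2 | h2
    · have h3 := ih z (fun r hr => hz r (by omega)) r h2
      unfold dg at h3 ⊢
      have e : z D * M ^ D = M ^ r * (M * (z D * M ^ (D - r - 1))) := by
        have : M ^ D = M ^ r * (M * M ^ (D - r - 1)) := by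
          rw [← pow_succ', ← pow_add]
          congr 1
          omega
        rw [this]
        ring
      rw [e, Nat.add_mul_div_left _ _ (by positivity), Nat.add_mul_mod_self_left, h3]
    · subst h2
      unfold dg
      rw [mul_comm (z r), Nat.add_mul_div_left _ _ (by positivity), Nat.div_eq_of_lt h1, zero_add,
        Nat.mod_eq_of_lt (hz r (by omega))]

theorem sum_dg (M D x : ℕ) : ∑ r ∈ range D, dg M x r * M ^ r = x % M ^ D := by
  induction D with
  | zero => simp [Nat.mod_one]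
  | succ D ih =>
    rw [sum_range_succ, ih, Nat.mod_pow_succ]
    unfold dg
    ring

/-- adding small digits -/
theorem dg_add {M D : ℕ} (hM : 0 < M) [NeZero (M ^ D)] (x : ZMod (M ^ D)) (y : ℕ → ℕ)
    (h : ∀ r < D, dg M x.val r + y r < M) :
    ∀ r < D, dg M (x + ((∑ r ∈ range D, y r * M ^ r : ℕ) : ZMod (M ^ D))).val r =
      dg M x.val r + y r := by
  have h1 : ((∑ r ∈ range D, (dg M x.val r + y r) * M ^ r : ℕ) : ZMod (M ^ D)) =
      x + ((∑ r ∈ range D, y r * M ^ r : ℕ) : ZMod (M ^ D)) := by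
    have h2 : ∑ r ∈ range D, (dg M x.val r + y r) * M ^ r =
        x.val + ∑ r ∈ range D, y r * M ^ r := by
      simp only [add_mul, sum_add_distrib]
      rw [sum_dg, Nat.mod_eq_of_lt x.val_lt]
    rw [h2, Nat.cast_add, ZMod.natCast_zmod_val]
  rw [← h1, ZMod.val_natCast_of_lt (sum_lt D _ h)]
  exact dg_sum hM D _ h

/-- the number of good base points -/
theorem card_good {M D K : ℕ} (hM : 0 < M) [NeZero (M ^ D)] :
    (M - K) ^ D ≤ (univ.filter fun x : ZMod (M ^ D) => ∀ r < D, dg M x.val r + K < M).card := by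
  classical
  have h0 : (M - K) ^ D = (Fintype.piFinset fun _ : Fin D => range (M - K)).card := by
    rw [Fintype.card_piFinset]
    simp
  rw [h0]
  let ext : (Fin D → ℕ) → ℕ → ℕ := fun z r => if h : r < D then z ⟨r, h⟩ else 0
  have hext : ∀ z ∈ Fintype.piFinset (fun _ : Fin D => range (M - K)), ∀ r < D,
      ext z r + K < M := by
    intro z hz r hr
    have h1 := Fintype.mem_piFinset.1 hz ⟨r, hr⟩
    rw [mem_range] at h1
    simp only [ext, hr, dite_true]
    omega
  refine card_le_card_of_injOn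
    (fun z => ((∑ r ∈ range D, ext z r * M ^ r : ℕ) : ZMod (M ^ D))) ?_ ?_
  · intro z hz
    have hz' := hext z (mem_coe.1 hz)
    have hz1 : ∀ r < D, ext z r < M := fun r hr => by
      have := hz' r hr
      omega
    refine mem_coe.2 (mem_filter.2 ⟨mem_univ _, fun r hr => ?_⟩)
    rw [ZMod.val_natCast_of_lt (sum_lt D _ hz1), dg_sum hM D _ hz1 r hr]
    exact hz' r hr
  · intro z hz z' hz' he
    have hz1 : ∀ r < D, ext z r < M := fun r hr => by
      have := hext z (mem_coe.1 hz) r hr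
      omega
    have hz2 : ∀ r < D, ext z' r < M := fun r hr => by
      have := hext z' (mem_coe.1 hz') r hr
      omega
    have he' := congrArg ZMod.val he
    simp only at he'
    rw [ZMod.val_natCast_of_lt (sum_lt D _ hz1), ZMod.val_natCast_of_lt (sum_lt D _ hz2)] at he'
    funext ⟨r, hr⟩
    have h1 := dg_sum hM D _ hz1 r hr
    have h2 := dg_sum hM D _ hz2 r hr
    rw [he'] at h1
    have h3 : ext z r = ext z' r := by rw [← h1, ← h2]
    simpa only [ext, hr, dite_true] using h3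

variable {X : Type*} [MeasurableSpace X] {μ : Measure X} [IsProbabilityMeasure μ]
  {C : Type*} [CommGroup C] {Ψ : C →* Equiv.Perm X}

/-- the moment curve in the group -/
def gc (a : ℕ → C) (D n : ℕ) : C := ∏ r ∈ range D, a r ^ (n ^ (r + 1))

/-- the averages -/
def av (Ψ : C →* Equiv.Perm X) (a : ℕ → C) (D : ℕ) (h : X → ℝ) (N : ℕ) (x : X) : ℝ :=
  (N : ℝ)⁻¹ * ∑ n ∈ range N, h (Ψ (gc a D n) x)

theorem av_meas (hmp : ∀ a, MeasurePreserving (Ψ a) μ μ) (a : ℕ → C) (D : ℕ) {h : X → ℝ}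
    (hm : Measurable h) (N : ℕ) : Measurable (av Ψ a D h N) :=
  (Finset.measurable_sum _ fun n _ => hm.comp (hmp (gc a D n)).measurable).const_mul _

theorem av_nonneg {a : ℕ → C} {D : ℕ} {h : X → ℝ} (h0 : ∀ x, 0 ≤ h x) (N : ℕ) (x : X) :
    0 ≤ av Ψ a D h N x :=
  mul_nonneg (by positivity) (sum_nonneg fun _ _ => h0 _)

theorem av_le {a : ℕ → C} {D : ℕ} {h : X → ℝ} {b : ℝ} (hb : 0 ≤ b) (h1 : ∀ x, h x ≤ b)
    (N : ℕ) (x : X) : av Ψ a D h N x ≤ b := by
  unfold av
  rcases Nat.eq_zero_or_pos N with h0 | h0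
  · subst h0
    simpa using hb
  · have hN0 : (0 : ℝ) < N := by exact_mod_cast h0
    rw [inv_mul_le_iff₀ hN0]
    refine (sum_le_sum fun n _ => h1 _).trans ?_
    rw [sum_const, card_range, nsmul_eq_mul]

/-- **Transference.** -/
theorem trans (hmp : ∀ a, MeasurePreserving (Ψ a) μ μ) (D : ℕ) {A : ℝ} (hA0 : 0 ≤ A)
    (hA : ∀ (M : ℕ) [NeZero M] (B : ℕ → ℕ) (f : ZMod M → ℂ) (t₁ : ℕ), Dom {t : ℕ | t ≤ t₁}
      (fun t => ml (fun k => w D (2 ^ t) (fun r => B r * th k)) f) (A * nrm f))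
    (a : ℕ → C) {h : X → ℝ} (hm : Measurable h) (h0 : ∀ x, 0 ≤ h x) {b : ℝ}
    (h1 : ∀ x, h x ≤ b) (t₁ : ℕ) (S : X → ℝ) (hSm : Measurable S) (hS0 : ∀ x, 0 ≤ S x)
    (hSb : ∀ x, S x ≤ b)
    (hS : ∀ x, ∃ t ≤ t₁, S x ≤ av Ψ a D h (2 ^ t) x) :
    ∫ x, S x ^ 2 ∂μ ≤ 2 * A ^ 2 * ∫ x, h x ^ 2 ∂μ := by
  classical
  set K := (2 ^ t₁) ^ D with hK
  have hK1 : 1 ≤ K := Nat.one_le_pow _ _ (by positivity)
  set M := 2 * (D + 1) * K with hM
  have hM0 : 0 < M := by positivity
  have : NeZero (M ^ D) := ⟨by positivity⟩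
  set L := M ^ D with hL
  set gd := univ.filter fun x : ZMod L => ∀ r < D, dg M x.val r + K < M with hgd
  have hcard : (L : ℝ) ≤ 2 * gd.card := by
    have h2 : (M - K) ^ D ≤ gd.card := card_good hM0
    have h3 : (L : ℝ) ≤ 2 * ((M - K : ℕ) : ℝ) ^ D := by
      have hKM : K ≤ M := by
        rw [hM]
        nlinarith
      rw [Nat.cast_sub hKM, hL]
      have hM0' : (0 : ℝ) < M := by exact_mod_cast hM0
      have e1 : (M : ℝ) - K = M * (1 + -((K : ℝ) / M)) := by field_simp; ring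
      have hD0 : (0 : ℝ) ≤ D := Nat.cast_nonneg _
      have hK0 : (0 : ℝ) < K := by exact_mod_cast hK1
      have e2 : (K : ℝ) / M = 1 / (2 * (D + 1)) := by
        rw [hM]
        push_cast
        field_simp
      have h4 := one_add_mul_le_pow (a := -((K : ℝ) / M)) (by
        rw [e2]
        have : 1 / (2 * ((D : ℝ) + 1)) ≤ 1 := by
          rw [div_le_one (by positivity)]
          linarith
        linarith) D
      have h5 : (1 : ℝ) / 2 ≤ 1 + D * -((K : ℝ) / M) := by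
        rw [e2]
        have : D * (1 / (2 * ((D : ℝ) + 1))) ≤ 1 / 2 := by
          rw [mul_one_div, div_le_div_iff₀ (by positivity) (by norm_num)]
          linarith
        linarith
      rw [Nat.cast_pow, e1, mul_pow]
      have h6 : 0 < (M : ℝ) ^ D := by positivity
      have h7 : (1 : ℝ) / 2 ≤ (1 + -((K : ℝ) / M)) ^ D := h5.trans h4
      nlinarith [mul_le_mul_of_nonneg_left h7 h6.le]
    have h4 : (((M - K) ^ D : ℕ) : ℝ) ≤ gd.card := by exact_mod_cast h2
    push_cast at h4 h3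
    linarith
  have hgd0 : (0 : ℝ) < gd.card := by
    have : (0 : ℝ) < L := by exact_mod_cast Nat.pos_of_ne_zero (NeZero.ne L)
    linarith
  set c : ZMod L → C := fun x => ∏ r ∈ range D, a r ^ dg M x.val r with hc
  have hb : 0 ≤ b := by
    have : Nonempty X := nonempty_of_isProbabilityMeasure μ
    obtain ⟨x⟩ := this
    exact (h0 x).trans (h1 x)
  -- the pointwise inequality
  have key : ∀ ω : X, ∑ x ∈ gd, S (Ψ (c x) ω) ^ 2 ≤ A ^ 2 * ∑ x, h (Ψ (c x) ω) ^ 2 := by
    intro ω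
    set f : ZMod L → ℂ := fun x => ((h (Ψ (c x) ω) : ℝ) : ℂ) with hf
    obtain ⟨H, H1, H2, H3⟩ := hA L (fun r => M ^ r) f t₁
    have h2 : ∀ x ∈ gd, S (Ψ (c x) ω) ≤ H x := by
      intro x hx
      obtain ⟨t, ht, hSt⟩ := hS (Ψ (c x) ω)
      refine hSt.trans ?_
      have h3 := H2 t ht x
      have h3 : ‖ml (fun k => w D (2 ^ t) (fun r => ((M ^ r : ℕ) : ℝ) * th k)) f x‖ ≤ H x := h3
      rw [ml_w D (2 ^ t) (fun r => M ^ r) f x] at h3
      have h4 : ∀ n ∈ range (2 ^ t),
          f (x + ((∑ r ∈ range D, n ^ (r + 1) * M ^ r : ℕ) : ZMod L)) =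
          ((h (Ψ (gc a D n) (Ψ (c x) ω)) : ℝ) : ℂ) := by
        intro n hn
        have hn' : n < 2 ^ t := mem_range.1 hn
        have hnK : ∀ r < D, n ^ (r + 1) ≤ K := by
          intro r hr
          calc n ^ (r + 1) ≤ (2 ^ t₁) ^ (r + 1) :=
                Nat.pow_le_pow_left (hn'.le.trans (Nat.pow_le_pow_right (by norm_num) ht)) _
            _ ≤ (2 ^ t₁) ^ D := Nat.pow_le_pow_right (by positivity) hr
        have h5 := dg_add hM0 x (fun r => n ^ (r + 1)) fun r hr => by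
          have h6 := (mem_filter.1 hx).2 r hr
          have h7 := hnK r hr
          omega
        rw [hf]
        simp only
        congr 2
        rw [← Equiv.Perm.mul_apply, ← map_mul]
        congr 2
        rw [hc]
        simp only
        unfold gc
        rw [← prod_mul_distrib]
        refine prod_congr rfl fun r hr => ?_
        rw [h5 r (mem_range.1 hr), pow_add, mul_comm]
      rw [sum_congr rfl h4] at h3
      have h5 : (((2 ^ t : ℕ) : ℂ))⁻¹ * ∑ n ∈ range (2 ^ t),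
          ((h (Ψ (gc a D n) (Ψ (c x) ω)) : ℝ) : ℂ) =
          ((av Ψ a D h (2 ^ t) (Ψ (c x) ω) : ℝ) : ℂ) := by
        unfold av
        push_cast
        rfl
      rw [h5, Complex.norm_real, Real.norm_eq_abs, abs_of_nonneg (av_nonneg h0 _ _)] at h3
      exact h3
    calc ∑ x ∈ gd, S (Ψ (c x) ω) ^ 2 ≤ ∑ x ∈ gd, H x ^ 2 :=
          sum_le_sum fun x hx => pow_le_pow_left₀ (hS0 _) (h2 x hx) 2
      _ ≤ ∑ x, H x ^ 2 := sum_le_sum_of_subset_of_nonneg (subset_univ _) fun _ _ _ => sq_nonneg _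
      _ ≤ (A * nrm f) ^ 2 := H3
      _ = A ^ 2 * ∑ x, h (Ψ (c x) ω) ^ 2 := by
        rw [mul_pow, nrm_sq]
        congr 1
        refine sum_congr rfl fun x _ => ?_
        rw [hf]
        simp only
        rw [Complex.norm_real, Real.norm_eq_abs, sq_abs]
  -- integration
  have hint : ∀ (F : X → ℝ), Measurable F → (∀ x, 0 ≤ F x) → (∀ x, F x ≤ b) → ∀ g : C,
      Integrable (fun ω => F (Ψ g ω) ^ 2) μ ∧ ∫ ω, F (Ψ g ω) ^ 2 ∂μ = ∫ ω, F ω ^ 2 ∂μ := by
    intro F hF hF0 hFb g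
    constructor
    · refine Integrable.of_bound ((hF.comp (hmp g).measurable).pow_const 2).aestronglyMeasurable
        (b ^ 2) (Eventually.of_forall fun x => ?_)
      rw [Real.norm_eq_abs, abs_of_nonneg (sq_nonneg _)]
      exact pow_le_pow_left₀ (hF0 _) (hFb _) 2
    · have e := integral_map (μ := μ) (hmp g).measurable.aemeasurable
        (f := fun x => F x ^ 2) (hF.pow_const 2).aestronglyMeasurable
      rw [(hmp g).map_eq] at e
      exact e.symm
  have h2 : ∫ ω, ∑ x ∈ gd, S (Ψ (c x) ω) ^ 2 ∂μ ≤ ∫ ω, A ^ 2 * ∑ x, h (Ψ (c x) ω) ^ 2 ∂μ := by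
    refine integral_mono (integrable_finsetSum _ fun x _ => (hint S hSm hS0 hSb _).1)
      ((integrable_finsetSum _ fun x _ => (hint h hm h0 h1 _).1).const_mul _) key
  rw [integral_finsetSum _ (fun x _ => (hint S hSm hS0 hSb _).1), integral_const_mul,
    integral_finsetSum _ (fun x _ => (hint h hm h0 h1 _).1)] at h2
  simp only [(hint S hSm hS0 hSb _).2, (hint h hm h0 h1 _).2, sum_const, nsmul_eq_mul] at h2
  have hcu : (univ : Finset (ZMod L)).card = L := by
    rw [card_univ, ZMod.card]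
  rw [hcu] at h2
  have hh : 0 ≤ ∫ x, h x ^ 2 ∂μ := integral_nonneg fun x => sq_nonneg _
  have h3 : (gd.card : ℝ) * ∫ x, S x ^ 2 ∂μ ≤ gd.card * (2 * A ^ 2 * ∫ x, h x ^ 2 ∂μ) := by
    calc (gd.card : ℝ) * ∫ x, S x ^ 2 ∂μ ≤ A ^ 2 * (L * ∫ x, h x ^ 2 ∂μ) := h2
      _ ≤ A ^ 2 * (2 * gd.card * ∫ x, h x ^ 2 ∂μ) := by gcongr
      _ = _ := by ring
  exact le_of_mul_le_mul_left h3 hgd0

end Pool.Agent.Zk89.MT
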