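import Pool.Agent.Zk89.BT.Lev
import Pool.Agent.Zk40.V.Inv3

/-!
# Exponential sums along the moment curve
-/

set_option autoImplicit false
set_option linter.unusedSectionVars false

open Finset Filter Topology

noncomputable section

namespace Pool.Agent.Zk89.MT

open Pool.Agent.Zk89.BT
open Pool.Agent.Helper602.MK (ee)
open Pool.Agent.Helper602.MK.N_J5b (ee_add ee_zero norm_ee ee_int ee_add_int)

/-- the phase `ξ₀ n + ξ₁ n² + ⋯` -/
def ph (D : ℕ) (ξ : ℕ → ℝ) (n : ℕ) : ℝ := ∑ r ∈ range D, ξ r * (n : ℝ) ^ (r + 1)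

/-- the normalized exponential sum -/
def w (D N : ℕ) (ξ : ℕ → ℝ) : ℂ := (N : ℂ)⁻¹ * ∑ n ∈ range N, ee (ph D ξ n)

/-- the size -/
def XX (D N : ℕ) (β : ℕ → ℝ) : ℝ := ∑ r ∈ range D, (N : ℝ) ^ (r + 1) * |β r|

theorem XX_nonneg (D N : ℕ) (β : ℕ → ℝ) : 0 ≤ XX D N β :=
  sum_nonneg fun r _ => by positivity

theorem ph_add (D : ℕ) (ξ η : ℕ → ℝ) (n : ℕ) :
    ph D (fun r => ξ r + η r) n = ph D ξ n + ph D η n := by
  unfold ph
  rw [← sum_add_distrib]
  exact sum_congr rfl fun r _ => by ring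

theorem ph_congr {D : ℕ} {ξ η : ℕ → ℝ} (h : ∀ r < D, ξ r = η r) (n : ℕ) :
    ph D ξ n = ph D η n :=
  sum_congr rfl fun r hr => by rw [h r (mem_range.1 hr)]

theorem w_congr {D : ℕ} {ξ η : ℕ → ℝ} (h : ∀ r < D, ξ r = η r) (N : ℕ) :
    w D N ξ = w D N η := by
  unfold w
  simp only [ph_congr h]

theorem w_norm_le (D N : ℕ) (ξ : ℕ → ℝ) : ‖w D N ξ‖ ≤ 1 := by
  unfold w
  rw [norm_mul, norm_inv, Complex.norm_natCast]
  rcases Nat.eq_zero_or_pos N with h0 | h0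
  · subst h0
    simp
  · have hN0 : (0 : ℝ) < N := by exact_mod_cast h0
    rw [inv_mul_le_iff₀ hN0, mul_one]
    refine (norm_sum_le _ _).trans ((sum_le_sum fun n _ => (norm_ee _).le).trans ?_)
    simp

/-- **The inverse theorem.** -/
theorem weyl (D : ℕ) : ∃ C m : ℕ, 1 ≤ C ∧ 1 ≤ m ∧ ∀ (N : ℕ) (u : ℝ) (ξ : ℕ → ℝ), 1 ≤ N → 1 ≤ u →
    1 ≤ u * ‖w D N ξ‖ →
    ∃ q : ℕ, 1 ≤ q ∧ (q : ℝ) ≤ C * u ^ m ∧ ∃ b : ℕ → ℤ, ∀ r < D,
      |ξ r - b r / q| ≤ C * u ^ m / (N : ℝ) ^ (r + 1) := by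
  obtain ⟨C, m, hC, hI⟩ := Pool.Agent.Zk40.V.inv_all D
  refine ⟨C, m + 1, hC, by omega, fun N u ξ hN hu hS => ?_⟩
  have hN0 : (0 : ℝ) < N := by exact_mod_cast hN
  have hu0 : 0 < u := by linarith
  have hpow : (C : ℝ) * u ^ m ≤ C * u ^ (m + 1) := by
    have := pow_le_pow_right₀ hu (Nat.le_succ m)
    gcongr
  have e1 : ∀ n : ℕ, Pool.Agent.Zk40.V.pv D (fun i => if i = 0 then 0 else ξ (i - 1)) n =
      ph D ξ n := by
    intro n
    unfold Pool.Agent.Zk40.V.pv ph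
    rw [sum_range_succ']
    simp
  have h1 : (N : ℝ) ≤ u * ‖∑ n ∈ range N,
      ee (Pool.Agent.Zk40.V.pv D (fun i => if i = 0 then 0 else ξ (i - 1)) n)‖ := by
    simp only [e1]
    unfold w at hS
    rw [norm_mul, norm_inv, Complex.norm_natCast] at hS
    have h2 := mul_le_mul_of_nonneg_left hS hN0.le
    rw [mul_one] at h2
    refine h2.trans (le_of_eq ?_)
    field_simp
  obtain ⟨q, hq, hq1, hb⟩ := hI N u _ hN hu h1
  have hq0 : (0 : ℝ) < q := by exact_mod_cast hq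
  have hq1' : (1 : ℝ) ≤ q := by exact_mod_cast hq
  refine ⟨q, hq, hq1.trans hpow, ?_⟩
  have h3 : ∀ r : ℕ, ∃ b : ℤ, r < D → |ξ r - b / q| ≤ C * u ^ (m + 1) / (N : ℝ) ^ (r + 1) := by
    intro r
    by_cases hr : r < D
    · obtain ⟨b, hb⟩ := hb (r + 1) (by omega) (by omega)
      simp only [Nat.add_eq_zero_iff, one_ne_zero, and_false, if_false, Nat.add_sub_cancel] at hb
      refine ⟨b, fun _ => ?_⟩
      have e2 : ξ r - b / q = (q * ξ r - b) / q := by field_simp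
      rw [e2, abs_div, abs_of_pos hq0]
      have h4 : |(q : ℝ) * ξ r - b| / q ≤ |(q : ℝ) * ξ r - b| := div_le_self (abs_nonneg _) hq1'
      refine h4.trans (hb.trans ?_)
      gcongr
    · exact ⟨0, fun h => absurd h hr⟩
  choose b hb using h3
  exact ⟨b, fun r hr => hb r hr⟩

theorem ph_le (D : ℕ) (β : ℕ → ℝ) {n N : ℕ} (h : n ≤ N) : |ph D β n| ≤ XX D N β := by
  unfold ph XX
  refine (abs_sum_le_sum_abs _ _).trans (sum_le_sum fun r _ => ?_)
  rw [abs_mul, abs_of_nonneg (show (0 : ℝ) ≤ (n : ℝ) ^ (r + 1) by positivity), mul_comm]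
  have : (n : ℝ) ≤ N := by exact_mod_cast h
  gcongr

/-- small frequencies -/
theorem w_near (D : ℕ) {N : ℕ} (hN : 1 ≤ N) (β : ℕ → ℝ) :
    ‖w D N β - 1‖ ≤ 2 * Real.pi * XX D N β := by
  have hN0 : (0 : ℝ) < N := by exact_mod_cast hN
  have hNc : (N : ℂ) ≠ 0 := by exact_mod_cast (show N ≠ 0 by omega)
  have e : w D N β - 1 = (N : ℂ)⁻¹ * ∑ n ∈ range N, (ee (ph D β n) - 1) := by
    unfold w
    rw [sum_sub_distrib, mul_sub]
    congr 1
    simp [hNc]
  rw [e, norm_mul, norm_inv, Complex.norm_natCast, inv_mul_le_iff₀ hN0]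
  refine (norm_sum_le _ _).trans ?_
  have h1 : ∀ n ∈ range N, ‖ee (ph D β n) - 1‖ ≤ 2 * Real.pi * XX D N β := by
    intro n hn
    refine (norm_ee_sub_one _).trans ?_
    have := ph_le D β (mem_range.1 hn).le
    have hpi := Real.pi_pos
    gcongr
  refine (sum_le_sum h1).trans ?_
  rw [sum_const, card_range, nsmul_eq_mul]

/-- **Decay.** -/
theorem w_far (D : ℕ) {C m : ℕ} (hC : 1 ≤ C) (hm : 1 ≤ m)
    (hW : ∀ (N : ℕ) (u : ℝ) (ξ : ℕ → ℝ), 1 ≤ N → 1 ≤ u → 1 ≤ u * ‖w D N ξ‖ →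
      ∃ q : ℕ, 1 ≤ q ∧ (q : ℝ) ≤ C * u ^ m ∧ ∃ b : ℕ → ℤ, ∀ r < D,
        |ξ r - b r / q| ≤ C * u ^ m / (N : ℝ) ^ (r + 1))
    {N : ℕ} (hN : 1 ≤ N) (β : ℕ → ℝ) (hβ : ∀ r < D, |β r| ≤ √N / (N : ℝ) ^ (r + 1)) :
    XX D N β * ‖w D N β‖ ^ m ≤ 2 * D * C := by
  have hN0 : (0 : ℝ) < N := by exact_mod_cast hN
  have hN1 : (1 : ℝ) ≤ N := by exact_mod_cast hN
  have hC0 : (0 : ℝ) < C := by exact_mod_cast (show 0 < C by omega)
  have hX := XX_nonneg D N β
  rcases (norm_nonneg (w D N β)).eq_or_lt with h0 | h0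
  · rw [← h0, zero_pow (by omega), mul_zero]
    positivity
  set v := ‖w D N β‖ with hv
  have hv1 : v ≤ 1 := w_norm_le D N β
  obtain ⟨q, hq, hq1, b, hb⟩ := hW N v⁻¹ β hN (one_le_inv₀ h0 |>.2 hv1) (by
    rw [← hv, inv_mul_cancel₀ h0.ne'])
  have hq0 : (0 : ℝ) < q := by exact_mod_cast hq
  set P : ℝ := C * v⁻¹ ^ m with hP
  have hP0 : 0 < P := by positivity
  have hP1 : 1 ≤ P := by
    have : (1 : ℝ) ≤ q := by exact_mod_cast hq
    linarith
  have hsq : √(N : ℝ) * √N = N := Real.mul_self_sqrt hN0.le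
  have hsq0 : 0 < √(N : ℝ) := Real.sqrt_pos.2 hN0
  have key : XX D N β ≤ 2 * D * P := by
    by_cases hz : ∀ r < D, b r = 0
    · have h1 : ∀ r ∈ range D, (N : ℝ) ^ (r + 1) * |β r| ≤ P := by
        intro r hr
        have h2 := hb r (mem_range.1 hr)
        rw [hz r (mem_range.1 hr), Int.cast_zero, zero_div, sub_zero,
          le_div_iff₀ (by positivity)] at h2
        linarith
      refine (sum_le_sum h1).trans ?_
      rw [sum_const, card_range, nsmul_eq_mul]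
      have : (0 : ℝ) ≤ D * P := by positivity
      linarith
    · push Not at hz
      obtain ⟨r, hr, hbr⟩ := hz
      have h2 := hb r hr
      have h3 : 1 / (q : ℝ) ≤ |(b r : ℝ) / q| := by
        rw [abs_div, abs_of_pos hq0]
        have : (1 : ℝ) ≤ |(b r : ℝ)| := by exact_mod_cast Int.one_le_abs hbr
        gcongr
      have h4 : |(b r : ℝ) / q| ≤ |β r| + P / (N : ℝ) ^ (r + 1) := by
        have e : (b r : ℝ) / q = β r - (β r - b r / q) := by ring
        rw [e]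
        exact (abs_sub _ _).trans (by linarith)
      have h5 : 1 / P ≤ 1 / (q : ℝ) := one_div_le_one_div_of_le hq0 hq1
      have h6 : 1 / P ≤ (√N + P) / N := by
        have h7 := hβ r hr
        have h8 : √N / (N : ℝ) ^ (r + 1) + P / (N : ℝ) ^ (r + 1) ≤ (√N + P) / N := by
          rw [← add_div]
          have : (N : ℝ) ≤ (N : ℝ) ^ (r + 1) := le_self_pow₀ hN1 (by omega)
          gcongr
        linarith
      have h7 : √(N : ℝ) ≤ 2 * P := by
        by_contra hcon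
        push Not at hcon
        rw [div_le_div_iff₀ hP0 hN0] at h6
        nlinarith
      have h1 : ∀ r ∈ range D, (N : ℝ) ^ (r + 1) * |β r| ≤ √N := by
        intro r hr
        have h2 := hβ r (mem_range.1 hr)
        rw [le_div_iff₀ (by positivity)] at h2
        linarith
      refine (sum_le_sum h1).trans ?_
      rw [sum_const, card_range, nsmul_eq_mul]
      have hD : (0 : ℝ) ≤ D := Nat.cast_nonneg _
      nlinarith
  calc XX D N β * v ^ m ≤ 2 * D * P * v ^ m := by gcongr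
    _ = 2 * D * C := by
      rw [hP, inv_pow]
      field_simp

/-- The Gauss sum. -/
def GS (D q : ℕ) (a : ℕ → ℤ) : ℂ := w D q (fun r => (a r : ℝ) / q)

theorem GS_norm_le (D q : ℕ) (a : ℕ → ℤ) : ‖GS D q a‖ ≤ 1 := w_norm_le _ _ _

theorem GS_congr {D q : ℕ} {a a' : ℕ → ℤ} (h : ∀ r < D, a r = a' r) : GS D q a = GS D q a' :=
  w_congr (fun r hr => by rw [h r hr]) q

theorem ee_per (D : ℕ) {q : ℕ} (hq : 1 ≤ q) (a : ℕ → ℤ) (n : ℕ) :
    ee (ph D (fun r => (a r : ℝ) / q) (n + q)) = ee (ph D (fun r => (a r : ℝ) / q) n) := by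
  have hq0 : (q : ℝ) ≠ 0 := by
    have : q ≠ 0 := by omega
    exact_mod_cast this
  have h1 : ∀ r : ℕ, ∃ c : ℤ, (((n + q : ℕ) : ℤ)) ^ (r + 1) - (n : ℤ) ^ (r + 1) = q * c := by
    intro r
    have h2 := sub_dvd_pow_sub_pow (((n + q : ℕ) : ℤ)) (n : ℤ) (r + 1)
    have h3 : (((n + q : ℕ) : ℤ)) - n = q := by push_cast; ring
    rw [h3] at h2
    exact h2
  choose c hc using h1
  have e : ph D (fun r => (a r : ℝ) / q) (n + q) =
      ph D (fun r => (a r : ℝ) / q) n + ((∑ r ∈ range D, a r * c r : ℤ) : ℝ) := by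
    unfold ph
    rw [Int.cast_sum, ← sum_add_distrib]
    refine sum_congr rfl fun r _ => ?_
    have h2 : (((n + q : ℕ) : ℝ)) ^ (r + 1) = (n : ℝ) ^ (r + 1) + q * c r := by
      have := hc r
      have h3 : (((n + q : ℕ) : ℤ)) ^ (r + 1) = (n : ℤ) ^ (r + 1) + q * c r := by linarith
      exact_mod_cast h3
    rw [h2]
    push_cast
    field_simp
  rw [e, ee_add_int]

/-- **Major arcs.** -/
theorem w_major (D : ℕ) {N q : ℕ} (hN : 1 ≤ N) (hq : 1 ≤ q) (a : ℕ → ℤ) (β : ℕ → ℝ) :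
    ‖w D N (fun r => (a r : ℝ) / q + β r) - GS D q a * w D N β‖ ≤
      2 * q / N * (1 + 2 * Real.pi * XX D N β) := by
  have hN0 : (0 : ℝ) < N := by exact_mod_cast hN
  have hX := XX_nonneg D N β
  set g : ℕ → ℂ := fun n => ee (ph D (fun r => (a r : ℝ) / q) n) with hg
  set f : ℕ → ℂ := fun n => ee (ph D β n) with hf
  have hG : GS D q a = (q : ℂ)⁻¹ * ∑ r ∈ range q, g r := rfl
  have e : w D N (fun r => (a r : ℝ) / q + β r) - GS D q a * w D N β =
      (N : ℂ)⁻¹ * ∑ n ∈ range N, f n * (g n - (q : ℂ)⁻¹ * ∑ r ∈ range q, g r) := by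
    rw [← hG]
    unfold w
    simp only [mul_sub, sum_sub_distrib]
    congr 1
    · congr 1
      refine sum_congr rfl fun n _ => ?_
      rw [ph_add, ee_add, mul_comm]
    · rw [← sum_mul]
      ring
  rw [e, norm_mul, norm_inv, Complex.norm_natCast]
  have h1 := abel_bound N hN f (fun n => g n - (q : ℂ)⁻¹ * ∑ r ∈ range q, g r) (2 * q)
    (fun K _ => per_sum hq g (fun n => ee_per D hq a n) (fun n => (norm_ee _).le) K)
  have h2 : ∀ n : ℕ, ‖f (n + 1) - f n‖ ≤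
      2 * Real.pi * ∑ r ∈ range D, |β r| * (((n + 1 : ℕ) : ℝ) ^ (r + 1) - (n : ℝ) ^ (r + 1)) := by
    intro n
    refine (norm_ee_sub _ _).trans ?_
    have hpi := Real.pi_pos
    refine mul_le_mul_of_nonneg_left ?_ (by positivity)
    unfold ph
    rw [← sum_sub_distrib]
    refine (abs_sum_le_sum_abs _ _).trans (sum_le_sum fun r _ => ?_)
    rw [← mul_sub, abs_mul]
    refine mul_le_mul_of_nonneg_left (le_of_eq (abs_of_nonneg ?_)) (abs_nonneg _)
    have : (n : ℝ) ≤ ((n + 1 : ℕ) : ℝ) := by exact_mod_cast Nat.le_succ n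
    have := pow_le_pow_left₀ (Nat.cast_nonneg n) this (r + 1)
    linarith
  have h3 : ∑ n ∈ range (N - 1), ‖f (n + 1) - f n‖ ≤ 2 * Real.pi * XX D N β := by
    refine (sum_le_sum fun n _ => h2 n).trans ?_
    rw [← mul_sum, sum_comm]
    have hpi := Real.pi_pos
    refine mul_le_mul_of_nonneg_left ?_ (by positivity)
    unfold XX
    refine sum_le_sum fun r _ => ?_
    rw [← mul_sum, sum_range_sub (fun n : ℕ => ((n : ℕ) : ℝ) ^ (r + 1)), mul_comm]
    refine mul_le_mul_of_nonneg_right ?_ (abs_nonneg _)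
    have h4 : ((N - 1 : ℕ) : ℝ) ≤ N := by exact_mod_cast Nat.sub_le N 1
    have h5 := pow_le_pow_left₀ (Nat.cast_nonneg _) h4 (r + 1)
    have h6 : (0 : ℝ) ≤ ((0 : ℕ) : ℝ) ^ (r + 1) := by positivity
    linarith
  have h4 : ‖f (N - 1)‖ = 1 := norm_ee _
  rw [h4] at h1
  rw [inv_mul_le_iff₀ hN0]
  refine h1.trans ?_
  have e2 : (N : ℝ) * (2 * q / N * (1 + 2 * Real.pi * XX D N β)) =
      2 * q * (1 + 2 * Real.pi * XX D N β) := by field_simp
  rw [e2]
  gcongr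

end Pool.Agent.Zk89.MT
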